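import Pool.Agent.Q152.WP.KS

/-!
# Extensions whose kernel is a restricted direct product of centreless indecomposable groups
-/

set_option autoImplicit false
set_option linter.unusedSectionVars false
set_option linter.style.haveILetI false

namespace Pool.Agent.Q152.WP

open Pool.Agent.Y462.SS

/-- all groups with a homomorphism to the integers whose kernel is isomorphic to `D` are in the
class -/
def ByCyclic (C : ∀ (G : Type) [Group G], Prop) (D : Type) [Group D] : Prop :=
  ∀ (P : Type) [Group P] (φ : P →* Multiplicative ℤ), Nonempty (φ.ker ≃* D) → C P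

variable {C : ∀ (G : Type) [Group G], Prop}

/-- the groups themselves -/
theorem ByCyclic.self {D : Type} [Group D] (h : ByCyclic C D) : C D := by
  refine h D 1 ⟨?_⟩
  refine (MulEquiv.subgroupCongr ?_).trans Subgroup.topEquiv
  ext x
  simp

/-- finite intersections of kernels -/
theorem inter (hC : Closed C) {G : Type} [Group G] {ι : Type} (K : ι → Subgroup G)
    (hn : ∀ i, (K i).Normal) (hK : ∀ i, C (G ⧸ K i)) (F : Finset ι) (hF : F.Nonempty) :
    ∃ L : Subgroup G, ∃ _ : L.Normal, C (G ⧸ L) ∧ ∀ g, g ∈ L ↔ ∀ i ∈ F, g ∈ K i := by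
  classical
  induction hF using Finset.Nonempty.cons_induction with
  | singleton a => exact ⟨K a, hn a, hK a, fun g => by simp⟩
  | cons a s ha hs ih =>
    obtain ⟨L, hL, h1, h2⟩ := ih
    haveI := hn a
    refine ⟨K a ⊓ L, inferInstance, quot_inf hC _ _ (hK a) h1, fun g => ?_⟩
    rw [Subgroup.mem_inf, h2]
    simp

/-- quotients by a normal subgroup which is a finite intersection of kernels in a subgroup of finite
index -/
theorem quot_fin (hC : Closed C) {G : Type} [Group G] (M : Subgroup G) [M.Normal] (T : Subgroup G)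
    (hT : T.FiniteIndex) {κ : Type} (K : κ → Subgroup T) (hn : ∀ i, (K i).Normal)
    (hK : ∀ i, C (T ⧸ K i)) (F : Finset κ) (hF : F.Nonempty)
    (h : ∀ g : T, (∀ i ∈ F, g ∈ K i) ↔ (g : G) ∈ M) : C (G ⧸ M) := by
  obtain ⟨L, hL, h1, h2⟩ := inter hC K hn hK F hF
  let φ : T →* (T.map (QuotientGroup.mk' M)) := (QuotientGroup.mk' M).subgroupMap T
  have hφ : Function.Surjective φ := (QuotientGroup.mk' M).subgroupMap_surjective T
  have hker : φ.ker = L := by
    ext g
    rw [h2, h, MonoidHom.mem_ker]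
    constructor
    · intro hg
      have h3 : ((g : G) : G ⧸ M) = 1 := congrArg Subtype.val hg
      exact (QuotientGroup.eq_one_iff (g : G)).1 h3
    · intro hg
      apply Subtype.ext
      exact (QuotientGroup.eq_one_iff (g : G)).2 hg
  subst hker
  have h3 : C (T.map (QuotientGroup.mk' M)) := Pool.Agent.Y812.SS.C_equiv hC
    (QuotientGroup.quotientKerEquivOfSurjective φ hφ).symm h1
  refine hC.finiteIndex _ (T.map (QuotientGroup.mk' M)) ⟨fun h0 => ?_⟩ h3
  have h4 := Subgroup.index_map_dvd T (f := QuotientGroup.mk' M) (QuotientGroup.mk'_surjective M)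
  rw [h0] at h4
  exact hT.index_ne_zero (Nat.eq_zero_of_zero_dvd h4)

namespace Dec

/-- transport -/
def trans {N N' : Type} [Group N] [Group N'] {ι : Type} {D : ι → Type} [∀ i, Group (D i)]
    (d : Dec N ι D) (e : N' ≃* N) : Dec N' ι D where
  sg i := (MulEquiv.toMonoidHom e.symm).comp (d.sg i)
  ev i := (d.ev i).comp (MulEquiv.toMonoidHom e)
  ev_sg i u := by
    change d.ev i (e (e.symm (d.sg i u))) = u
    rw [MulEquiv.apply_symm_apply, d.ev_sg]
  ev_ne i j u h := by
    change d.ev j (e (e.symm (d.sg i u))) = 1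
    rw [MulEquiv.apply_symm_apply, d.ev_ne i j u h]
  ext a b h := e.injective (d.ext _ _ h)
  fin a := d.fin (e a)

section
variable {G Q : Type} [Group G] [Group Q] {f : G →* Q} {ι : Type} {D : ι → Type}
  [∀ i, Group (D i)] (d : Dec f.ker ι D) (hD : ∀ i, Prime (D i))

/-- the permutation of the factors by an element -/
noncomputable def pm : G →* Equiv.Perm ι := (d.perm hD).comp MulAut.conjNormal

theorem pm_ker (y : G) (hy : y ∈ f.ker) : d.pm hD y = 1 := by
  change d.perm hD (MulAut.conjNormal ((⟨y, hy⟩ : f.ker) : G)) = 1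
  rw [MulAut.conjNormal_val, perm_conj]

/-- the elements with trivial components in `Z` -/
def M (Z : Set ι) : Subgroup G where
  carrier := {g | ∃ h : g ∈ f.ker, ∀ i ∈ Z, d.ev i ⟨g, h⟩ = 1}
  one_mem' := ⟨one_mem _, fun i _ => map_one (d.ev i)⟩
  mul_mem' := by
    rintro a b ⟨ha, ha'⟩ ⟨hb, hb'⟩
    refine ⟨mul_mem ha hb, fun i hi => ?_⟩
    have : (⟨a * b, mul_mem ha hb⟩ : f.ker) = ⟨a, ha⟩ * ⟨b, hb⟩ := rfl
    rw [this, map_mul, ha' i hi, hb' i hi, one_mul]
  inv_mem' := by
    rintro a ⟨ha, ha'⟩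
    refine ⟨inv_mem ha, fun i hi => ?_⟩
    have : (⟨a⁻¹, inv_mem ha⟩ : f.ker) = ⟨a, ha⟩⁻¹ := rfl
    rw [this, map_inv, ha' i hi, inv_one]

theorem ev_conj (g y : G) (hy : y ∈ f.ker) (i j : ι) (hij : d.pm hD g i = j)
    (h : d.ev i ⟨y, hy⟩ = 1) (hy' : g * y * g⁻¹ ∈ f.ker) :
    d.ev j ⟨g * y * g⁻¹, hy'⟩ = 1 := by
  subst hij
  have h1 := d.ev_perm hD (MulAut.conjNormal g) i ⟨y, hy⟩ h
  have h2 : MulAut.conjNormal g ⟨y, hy⟩ = ⟨g * y * g⁻¹, hy'⟩ :=
    Subtype.ext (MulAut.conjNormal_apply g ⟨y, hy⟩)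
  rw [h2] at h1
  exact h1

theorem M_conj (Z : Set ι) (g n : G) (hZ : ∀ i ∈ Z, d.pm hD g⁻¹ i ∈ Z) (hn : n ∈ d.M Z) :
    g * n * g⁻¹ ∈ d.M Z := by
  obtain ⟨h, h'⟩ := hn
  refine ⟨(MonoidHom.normal_ker f).conj_mem n h g, fun i hi => ?_⟩
  refine d.ev_conj hD g n h (d.pm hD g⁻¹ i) i ?_ (h' _ (hZ i hi)) _
  rw [← Equiv.Perm.mul_apply, ← map_mul, mul_inv_cancel, map_one]
  rfl

theorem M_anti {Z Z' : Set ι} (h : Z ⊆ Z') : d.M Z' ≤ d.M Z :=
  fun _ ⟨hg, hg'⟩ => ⟨hg, fun i hi => hg' i (h hi)⟩

include d in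
/-- the kernel is in the class -/
theorem ker_mem (hC : Closed C) (hcy : ∀ i, C (D i)) : C f.ker := by
  classical
  refine Pool.Agent.Y430.SS.of_directed hC _ (Finset ι) (fun i j => ⟨i ∪ j, ?_, ?_⟩)
    (fun F => (d.M ((F : Set ι)ᶜ)).subgroupOf f.ker) ?_ ?_ ?_
  · exact Finset.subset_union_left
  · exact Finset.subset_union_right
  · intro F F' hF g hg
    exact d.M_anti (Set.compl_subset_compl.2 (by exact_mod_cast hF)) hg
  · intro g
    refine ⟨(d.fin g).toFinset, g.2, fun i hi => ?_⟩
    by_contra h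
    exact hi ((d.fin g).mem_toFinset.2 h)
  · intro F
    let S := (d.M ((F : Set ι)ᶜ)).subgroupOf f.ker
    let K : Option ι → Subgroup S := fun o => match o with
      | none => (1 : S →* Multiplicative ℤ).ker
      | some x => ((d.ev x).comp S.subtype).ker
    refine joint hC K ?_ ?_ (insert none (F.image some)) (Finset.insert_nonempty _ _) ?_
    · rintro (_ | x)
      · exact MonoidHom.normal_ker _
      · exact MonoidHom.normal_ker _
    · rintro (_ | x)
      · exact quot_ker hC _ hC.int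
      · exact quot_ker hC _ (hcy x)
    · intro g hg
      apply Subtype.ext
      refine d.ext _ _ (fun i => ?_)
      by_cases hi : i ∈ F
      · have h1 : d.ev i g.1 = 1 := hg (some i)
          (Finset.mem_insert_of_mem (Finset.mem_image_of_mem _ hi))
        rw [h1]
        exact (map_one _).symm
      · obtain ⟨h1, h2⟩ := g.2
        have h3 : d.ev i g.1 = 1 := h2 i hi
        rw [h3]
        exact (map_one _).symm

end

section
variable {G : Type} [Group G] {E : G →* Multiplicative ℤ} {ι : Type} {D : ι → Type}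
  [∀ i, Group (D i)] (d : Dec E.ker ι D) (hD : ∀ i, Prime (D i))

/-- quotients by the complements of a factor -/
theorem quot_cyc (T : Subgroup G) (hT : E.ker ≤ T) (i : ι)
    (hn : ((d.M {i}).subgroupOf T).Normal) (hcy : ByCyclic C (D i)) :
    C (T ⧸ (d.M {i}).subgroupOf T) := by
  let φ : T ⧸ (d.M {i}).subgroupOf T →* Multiplicative ℤ :=
    QuotientGroup.lift _ (E.comp T.subtype) (fun g hg => by
      obtain ⟨h, _⟩ := hg
      exact h)
  let δ : D i →* φ.ker :=
    { toFun := fun u => ⟨QuotientGroup.mk ⟨(d.sg i u : G), hT (d.sg i u).2⟩, (d.sg i u).2⟩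
      map_one' := by
        apply Subtype.ext
        change ((⟨(d.sg i 1 : G), _⟩ : T) : T ⧸ (d.M {i}).subgroupOf T) = 1
        rw [QuotientGroup.eq_one_iff]
        refine ⟨(d.sg i 1).2, fun j hj => ?_⟩
        rw [Set.mem_singleton_iff] at hj
        subst hj
        exact d.ev_sg j 1
      map_mul' := fun u v => by
        apply Subtype.ext
        change ((⟨(d.sg i (u * v) : G), _⟩ : T) : T ⧸ (d.M {i}).subgroupOf T) =
          ((⟨(d.sg i u : G), _⟩ * ⟨(d.sg i v : G), _⟩ : T) : T ⧸ (d.M {i}).subgroupOf T)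
        congr 1
        apply Subtype.ext
        simp }
  refine hcy _ φ ⟨(MulEquiv.ofBijective δ ⟨?_, ?_⟩).symm⟩
  · rw [injective_iff_map_eq_one]
    intro u hu
    have h1 : ((⟨(d.sg i u : G), hT (d.sg i u).2⟩ : T) : T ⧸ (d.M {i}).subgroupOf T) = 1 :=
      congrArg Subtype.val hu
    rw [QuotientGroup.eq_one_iff] at h1
    obtain ⟨h2, h3⟩ := h1
    have h4 := h3 i rfl
    have h5 : d.ev i (d.sg i u) = 1 := h4
    rwa [d.ev_sg] at h5
  · rintro ⟨z, hz⟩
    induction z using QuotientGroup.induction_on with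
    | H g =>
      have hg : (g : G) ∈ E.ker := hz
      refine ⟨d.ev i ⟨g, hg⟩, ?_⟩
      apply Subtype.ext
      change ((⟨(d.sg i (d.ev i ⟨g, hg⟩) : G), _⟩ : T) : T ⧸ (d.M {i}).subgroupOf T) = g
      rw [QuotientGroup.eq]
      refine ⟨mul_mem (inv_mem (d.sg i _).2) hg, fun j hj => ?_⟩
      rw [Set.mem_singleton_iff] at hj
      subst hj
      change d.ev j ((d.sg j (d.ev j ⟨g, hg⟩))⁻¹ * ⟨g, hg⟩) = 1
      rw [map_mul, map_inv, d.ev_sg, inv_mul_cancel]

/-- the action on an invariant set -/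
noncomputable def rest (O : Set ι) (hO : ∀ g : G, ∀ i ∈ O, d.pm hD g i ∈ O) : G →* Equiv.Perm O where
  toFun g :=
    { toFun := fun i => ⟨d.pm hD g i, hO g i i.2⟩
      invFun := fun i => ⟨d.pm hD g⁻¹ i, hO g⁻¹ i i.2⟩
      left_inv := fun i => Subtype.ext (by
        change d.pm hD g⁻¹ (d.pm hD g i) = i
        rw [← Equiv.Perm.mul_apply, ← map_mul, inv_mul_cancel, map_one]
        rfl)
      right_inv := fun i => Subtype.ext (by
        change d.pm hD g (d.pm hD g⁻¹ i) = i
        rw [← Equiv.Perm.mul_apply, ← map_mul, mul_inv_cancel, map_one]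
        rfl) }
  map_one' := by
    ext i
    change d.pm hD 1 i = i
    rw [map_one]
    rfl
  map_mul' a b := by
    ext i
    change d.pm hD (a * b) i = d.pm hD a (d.pm hD b i)
    rw [map_mul]
    rfl

/-- finite orbits -/
theorem fin_orb (hC : Closed C) (hcy : ∀ i, ByCyclic C (D i)) (O : Set ι) [Finite O]
    (hne : O.Nonempty) (hO : ∀ g : G, ∀ i ∈ O, d.pm hD g i ∈ O) [(d.M O).Normal] :
    C (G ⧸ d.M O) := by
  classical
  haveI := Fintype.ofFinite O
  let T : Subgroup G := (d.rest hD O hO).ker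
  have hT : E.ker ≤ T := by
    intro g hg
    rw [MonoidHom.mem_ker]
    ext i
    change d.pm hD g i = i
    rw [d.pm_ker hD g hg]
    rfl
  have hTi : T.FiniteIndex := inferInstance
  have hfix : ∀ g ∈ T, ∀ i ∈ O, d.pm hD g i = i := by
    intro g hg i hi
    have h1 := MonoidHom.mem_ker.1 hg
    have h2 := congrArg (fun p : Equiv.Perm O => (p ⟨i, hi⟩ : ι)) h1
    exact h2
  have hn : ∀ i : O, ((d.M {(i : ι)}).subgroupOf T).Normal := by
    intro i
    refine ⟨fun n hn g => ?_⟩
    refine d.M_conj hD _ g n (fun j hj => ?_) hn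
    rw [Set.mem_singleton_iff] at hj
    subst hj
    exact hfix _ (inv_mem g.2) _ i.2
  refine quot_fin hC (d.M O) T hTi (fun i : O => (d.M {(i : ι)}).subgroupOf T) hn
    (fun i => d.quot_cyc T hT i (hn i) (hcy i)) Finset.univ ?_ ?_
  · obtain ⟨x, hx⟩ := hne
    exact ⟨⟨x, hx⟩, Finset.mem_univ _⟩
  · intro g
    constructor
    · intro h
      obtain ⟨x, hx⟩ := hne
      obtain ⟨h1, -⟩ := h ⟨x, hx⟩ (Finset.mem_univ _)
      refine ⟨h1, fun i hi => ?_⟩
      obtain ⟨_, h2⟩ := h ⟨i, hi⟩ (Finset.mem_univ _)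
      exact h2 i rfl
    · rintro ⟨h1, h2⟩ i _
      refine ⟨h1, fun j hj => ?_⟩
      rw [Set.mem_singleton_iff] at hj
      subst hj
      exact h2 _ i.2

/-- infinite orbits -/
theorem inf_orb (hC : Closed C) {t : G} (ht : E t = Multiplicative.ofAdd 1) (x : ι)
    (hcy : C (D x)) (hx : Function.Injective fun n : ℤ => d.pm hD (t ^ n) x) :
    ∃ K : Subgroup G, ∃ _ : K.Normal, C (G ⧸ K) ∧
      ∀ g ∈ K, ∀ h : g ∈ E.ker, ∀ n : ℤ, d.ev (d.pm hD (t ^ n) x) ⟨g, h⟩ = 1 := by
  have hE : ∀ n : ℤ, E (t ^ n) = Multiplicative.ofAdd n := by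
    intro n
    rw [map_zpow, ht, ← ofAdd_zsmul, smul_eq_mul, mul_one]
  let e : G → ℤ := fun g => Multiplicative.toAdd (E g)
  have hc : ∀ (g : G) (k : ℤ), t ^ (-(k + e g)) * g * t ^ k ∈ E.ker := by
    intro g k
    rw [MonoidHom.mem_ker, map_mul, map_mul, hE, hE]
    have h1 : E g = Multiplicative.ofAdd (e g) := rfl
    rw [h1, ← ofAdd_add, ← ofAdd_add]
    have h2 : -(k + e g) + e g + k = 0 := by ring
    rw [h2, ofAdd_zero]
  let Ψ : G →* PW (D x) (Multiplicative ℤ) (Multiplicative ℤ) :=
    { toFun := fun g => ⟨fun k => d.ev x ⟨_, hc g (Multiplicative.toAdd k)⟩, by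
        have hy : t ^ (-(e g)) * g ∈ E.ker := by
          have := hc g 0
          simpa using this
        refine ((d.fin ⟨_, hy⟩).preimage
          (f := fun n : Multiplicative ℤ => d.pm hD (t ^ (Multiplicative.toAdd n)) x) ?_).subset
          (fun k hk => ?_)
        · intro a _ b _ hab
          exact Multiplicative.toAdd.injective (hx hab)
        · intro h0
          apply hk
          have h1 : (⟨_, hc g (Multiplicative.toAdd k)⟩ : E.ker) =
              ⟨(t ^ (-(Multiplicative.toAdd k))) * (t ^ (-(e g)) * g) *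
                (t ^ (-(Multiplicative.toAdd k)))⁻¹, (MonoidHom.normal_ker E).conj_mem _ hy _⟩ := by
            apply Subtype.ext
            change t ^ (-(Multiplicative.toAdd k + e g)) * g * t ^ Multiplicative.toAdd k =
              (t ^ (-(Multiplicative.toAdd k))) * (t ^ (-(e g)) * g) *
                (t ^ (-(Multiplicative.toAdd k)))⁻¹
            rw [← zpow_neg, neg_neg, neg_add, zpow_add]
            group
          rw [h1]
          refine d.ev_conj hD _ _ hy (d.pm hD (t ^ (Multiplicative.toAdd k)) x) x ?_ h0 _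
          rw [← Equiv.Perm.mul_apply, ← map_mul, ← zpow_add, neg_add_cancel, zpow_zero, map_one]
          rfl, E g⟩
      map_one' := by
        refine PW.ext' (fun k => ?_) (map_one E)
        have h1 : (⟨_, hc 1 (Multiplicative.toAdd k)⟩ : E.ker) = 1 := by
          apply Subtype.ext
          change t ^ (-(Multiplicative.toAdd k + e 1)) * 1 * t ^ Multiplicative.toAdd k = 1
          have h2 : e 1 = 0 := by
            change Multiplicative.toAdd (E 1) = 0
            rw [map_one]
            rfl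
          rw [h2, add_zero, mul_one, ← zpow_add, neg_add_cancel, zpow_zero]
        change d.ev x ⟨_, hc 1 (Multiplicative.toAdd k)⟩ = 1
        rw [h1, map_one]
      map_mul' := fun a b => by
        refine PW.ext' (fun k => ?_) (map_mul E a b)
        have h0 : e (a * b) = e a + e b := by
          change Multiplicative.toAdd (E (a * b)) = _
          rw [map_mul]
          rfl
        have h1 : (⟨_, hc (a * b) (Multiplicative.toAdd k)⟩ : E.ker) =
            ⟨_, hc a (e b + Multiplicative.toAdd k)⟩ * ⟨_, hc b (Multiplicative.toAdd k)⟩ := by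
          apply Subtype.ext
          change t ^ (-(Multiplicative.toAdd k + e (a * b))) * (a * b) * t ^ Multiplicative.toAdd k =
            (t ^ (-(e b + Multiplicative.toAdd k + e a)) * a * t ^ (e b + Multiplicative.toAdd k)) *
            (t ^ (-(Multiplicative.toAdd k + e b)) * b * t ^ (Multiplicative.toAdd k))
          have h3 : t ^ (e b + Multiplicative.toAdd k) * t ^ (-(Multiplicative.toAdd k + e b)) = 1 := by
            rw [← zpow_add, add_comm (e b), add_neg_cancel, zpow_zero]
          have h4 : -(e b + Multiplicative.toAdd k + e a) =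
              -(Multiplicative.toAdd k + e (a * b)) := by
            rw [h0]
            ring
          rw [h4]
          calc t ^ (-(Multiplicative.toAdd k + e (a * b))) * (a * b) * t ^ Multiplicative.toAdd k
              = t ^ (-(Multiplicative.toAdd k + e (a * b))) * a * 1 * b *
                  t ^ Multiplicative.toAdd k := by group
            _ = _ := by
              rw [← h3]
              group
        change d.ev x ⟨_, hc (a * b) (Multiplicative.toAdd k)⟩ =
          d.ev x ⟨_, hc a (e b + Multiplicative.toAdd k)⟩ * d.ev x ⟨_, hc b (Multiplicative.toAdd k)⟩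
        rw [h1, map_mul] }
  refine ⟨Ψ.ker, inferInstance, quot_ker hC Ψ (wreath_resFin hC hcy hC.int resFin_int), ?_⟩
  intro g hg h n
  have h1 : d.ev x ⟨_, hc g n⟩ = 1 :=
    congrArg (fun p => PW.s p (Multiplicative.ofAdd n)) (MonoidHom.mem_ker.1 hg)
  have h2 : e g = 0 := by
    change Multiplicative.toAdd (E g) = 0
    rw [MonoidHom.mem_ker.1 h]
    rfl
  have h3 : (⟨g, h⟩ : E.ker) = ⟨t ^ n * (t ^ (-(n + e g)) * g * t ^ n) * (t ^ n)⁻¹,
      (MonoidHom.normal_ker E).conj_mem _ (hc g n) _⟩ := by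
    apply Subtype.ext
    change g = t ^ n * (t ^ (-(n + e g)) * g * t ^ n) * (t ^ n)⁻¹
    rw [h2]
    group
  rw [h3]
  exact d.ev_conj hD _ _ (hc g n) x _ rfl h1 _

include d hD in
/-- groups over the integers -/
theorem over_int (hC : Closed C) (hcy : ∀ i, ByCyclic C (D i)) {t : G}
    (ht : E t = Multiplicative.ofAdd 1) : C G := by
  classical
  have hE : ∀ n : ℤ, E (t ^ n) = Multiplicative.ofAdd n := by
    intro n
    rw [map_zpow, ht, ← ofAdd_zsmul, smul_eq_mul, mul_one]
  have hdec : ∀ g : G, ∃ n : ℤ, ∃ y ∈ E.ker, g = t ^ n * y := by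
    intro g
    refine ⟨Multiplicative.toAdd (E g), t ^ (-(Multiplicative.toAdd (E g))) * g, ?_, by group⟩
    rw [MonoidHom.mem_ker, map_mul, hE]
    change Multiplicative.ofAdd (-(Multiplicative.toAdd (E g))) * E g = 1
    rw [ofAdd_neg]
    exact inv_mul_cancel _
  have hpm : ∀ (a : G) (x : ι), ∃ n : ℤ, d.pm hD a x = d.pm hD (t ^ n) x := by
    intro a x
    obtain ⟨n, y, hy, rfl⟩ := hdec a
    refine ⟨n, ?_⟩
    rw [map_mul, d.pm_ker hD y hy, mul_one]
  let Y : Finset ι → Set ι := fun F => {j | ∃ i ∈ F, ∃ a : G, d.pm hD a i = j}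
  have hY : ∀ F, ∀ a : G, ∀ j ∈ Y F, d.pm hD a j ∈ Y F := by
    rintro F a j ⟨i, hi, b, rfl⟩
    refine ⟨i, hi, a * b, ?_⟩
    rw [map_mul]
    rfl
  have hYc : ∀ F, ∀ a : G, ∀ j ∈ (Y F)ᶜ, d.pm hD a j ∈ (Y F)ᶜ := by
    intro F a j hj h
    apply hj
    have := hY F a⁻¹ _ h
    rwa [← Equiv.Perm.mul_apply, ← map_mul, inv_mul_cancel, map_one] at this
  have hMn : ∀ F, (d.M (Y F)ᶜ).Normal := fun F =>
    ⟨fun n hn g => d.M_conj hD _ g n (hYc F g⁻¹) hn⟩
  refine Pool.Agent.Y430.SS.of_directed hC _ (Finset ι) (fun i j => ⟨i ∪ j, ?_, ?_⟩)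
    (fun F => d.M (Y F)ᶜ ⊔ Subgroup.zpowers t) ?_ ?_ ?_
  · exact Finset.subset_union_left
  · exact Finset.subset_union_right
  · intro F F' hF
    refine sup_le_sup_right (d.M_anti (Set.compl_subset_compl.2 ?_)) _
    rintro j ⟨i, hi, a, rfl⟩
    exact ⟨i, hF hi, a, rfl⟩
  · intro g
    obtain ⟨n, y, hy, rfl⟩ := hdec g
    refine ⟨(d.fin ⟨y, hy⟩).toFinset, mul_mem (Subgroup.mem_sup_right ⟨n, rfl⟩)
      (Subgroup.mem_sup_left ⟨hy, fun i hi => ?_⟩)⟩
    by_contra h
    exact hi ⟨i, (d.fin ⟨y, hy⟩).mem_toFinset.2 h, 1, by rw [map_one]; rfl⟩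
  · intro F
    have horb : ∀ x : ι, ∃ K : Subgroup G, ∃ _ : K.Normal, C (G ⧸ K) ∧
        ∀ g ∈ K, ∀ h : g ∈ E.ker, ∀ a : G, d.ev (d.pm hD a x) ⟨g, h⟩ = 1 := by
      intro x
      by_cases hx : Function.Injective fun n : ℤ => d.pm hD (t ^ n) x
      · obtain ⟨K, hK, h1, h2⟩ := d.inf_orb hD hC ht x (hcy x).self hx
        refine ⟨K, hK, h1, fun g hg h a => ?_⟩
        obtain ⟨n, hn⟩ := hpm a x
        rw [hn]
        exact h2 g hg h n
      · let O : Set ι := Set.range fun a : G => d.pm hD a x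
        have hO : ∀ g : G, ∀ i ∈ O, d.pm hD g i ∈ O := by
          rintro g _ ⟨a, rfl⟩
          exact ⟨g * a, by simp only [map_mul, Equiv.Perm.mul_apply]⟩
        have hfin : Finite O := by
          set p := Function.minimalPeriod (fun y => d.pm hD t • y) x with hp
          have hp0 : p ≠ 0 := by
            intro h0
            apply hx
            intro m n hmn
            have h1 : (d.pm hD t) ^ (m - n) • x = x := by
              have h2 : (d.pm hD t) ^ m • x = (d.pm hD t) ^ n • x := by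
                rw [← map_zpow, ← map_zpow]
                exact hmn
              have h3 : (d.pm hD t) ^ (-n) • (d.pm hD t) ^ m • x =
                  (d.pm hD t) ^ (-n) • (d.pm hD t) ^ n • x := by rw [h2]
              rw [← mul_smul, ← mul_smul, ← zpow_add, ← zpow_add, neg_add_cancel, zpow_zero,
                one_smul] at h3
              rw [sub_eq_neg_add]
              exact h3
            rw [MulAction.zpow_smul_eq_iff_minimalPeriod_dvd, ← hp, h0] at h1
            have h4 : m - n = 0 := by simpa using h1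
            omega
          have hsub : O ⊆ (fun n : ℤ => (d.pm hD t) ^ n • x) '' (Set.Ico 0 (p : ℤ)) := by
            rintro _ ⟨a, rfl⟩
            obtain ⟨n, hn⟩ := hpm a x
            refine ⟨n % p, ⟨Int.emod_nonneg _ (by omega), Int.emod_lt_of_pos _ (by omega)⟩, ?_⟩
            have h1 := MulAction.zpow_smul_mod_minimalPeriod (d.pm hD t) x n
            change (d.pm hD t) ^ (n % (p : ℤ)) • x = d.pm hD a x
            rw [h1, hn, map_zpow]
            rfl
          exact ((Set.finite_Ico 0 (p : ℤ)).image _).subset hsub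
        haveI hn : (d.M O).Normal := ⟨fun n hn g => d.M_conj hD _ g n (hO g⁻¹) hn⟩
        refine ⟨d.M O, hn, d.fin_orb hD hC hcy O ⟨x, 1, by simp⟩ hO, ?_⟩
        rintro g ⟨h, h'⟩ _ a
        exact h' _ ⟨a, rfl⟩
    choose K hKn hKC hK using horb
    let S : Subgroup G := d.M (Y F)ᶜ ⊔ Subgroup.zpowers t
    let K' : Option ι → Subgroup S := fun o => match o with
      | none => (E.comp S.subtype).ker
      | some x => ((QuotientGroup.mk' (K x)).comp S.subtype).ker
    refine joint hC K' ?_ ?_ (insert none (F.image some)) (Finset.insert_nonempty _ _) ?_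
    · rintro (_ | x)
      · exact MonoidHom.normal_ker _
      · exact MonoidHom.normal_ker _
    · rintro (_ | x)
      · exact quot_ker hC _ hC.int
      · exact quot_ker hC _ (hKC x)
    · intro g hg
      have h0 : (g : G) ∈ E.ker := hg none (Finset.mem_insert_self _ _)
      apply Subtype.ext
      change (g : G) = 1
      have h1 : (⟨(g : G), h0⟩ : E.ker) = 1 := by
        refine d.ext _ _ (fun i => ?_)
        rw [map_one]
        by_cases hi : i ∈ Y F
        · obtain ⟨x, hx, a, rfl⟩ := hi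
          have h2 : g ∈ K' (some x) := hg (some x)
            (Finset.mem_insert_of_mem (Finset.mem_image_of_mem _ hx))
          have h3 : ((g : G) : G ⧸ K x) = 1 := MonoidHom.mem_ker.1 h2
          rw [QuotientGroup.eq_one_iff] at h3
          exact hK x _ h3 h0 a
        · haveI := hMn F
          obtain ⟨m, hm, z, ⟨n, rfl⟩, hz⟩ := Subgroup.mem_sup_of_normal_left.1 g.2
          have hz' : m * t ^ n = (g : G) := hz
          have h4 : n = 0 := by
            have h5 : E (m * t ^ n) = 1 := by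
              rw [hz']
              exact h0
            rw [map_mul, MonoidHom.mem_ker.1 hm.choose, one_mul, hE] at h5
            exact Multiplicative.ofAdd.injective h5
          rw [h4, zpow_zero, mul_one] at hz'
          subst hz'
          exact hm.choose_spec i hi
      exact congrArg Subtype.val h1

end

end Dec

/-- the restricted direct product of the groups `D i` -/
def FS {ι : Type} (D : ι → Type) [∀ i, Group (D i)] : Subgroup (∀ i, D i) where
  carrier := {u | {i | u i ≠ 1}.Finite}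
  one_mem' := by simp
  mul_mem' := by
    intro a b ha hb
    refine (Set.Finite.union ha hb).subset (fun i hi => ?_)
    by_contra hc
    simp only [Set.mem_union, Set.mem_ofPred_eq, not_or, not_not] at hc
    exact hi (by rw [Pi.mul_apply, hc.1, hc.2, one_mul])
  inv_mem' := by
    intro a ha
    refine Set.Finite.subset ha (fun i hi h => hi ?_)
    rw [Pi.inv_apply, h, inv_one]

open scoped Classical in
/-- its decomposition -/
noncomputable def FS.dec {ι : Type} (D : ι → Type) [∀ i, Group (D i)] : Dec (FS D) ι D where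
  sg i :=
    { toFun := fun u => ⟨Pi.mulSingle i u, (Set.finite_singleton i).subset (fun j hj => by
        by_contra hne
        exact hj (Pi.mulSingle_eq_of_ne hne u))⟩
      map_one' := Subtype.ext (Pi.mulSingle_one i)
      map_mul' := fun u v => Subtype.ext (Pi.mulSingle_mul i u v) }
  ev i := (Pi.evalMonoidHom D i).comp (FS D).subtype
  ev_sg i u := Pi.mulSingle_eq_same i u
  ev_ne i j u h := Pi.mulSingle_eq_of_ne h u
  ext a b h := Subtype.ext (funext h)
  fin a := a.2

/-- the exponent -/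
theorem exists_expo {G Q : Type} [Group G] [Group Q] (f : G →* Q) {q : Q}
    (hq : ¬ IsOfFinOrder q) : ∃ E : (Subgroup.zpowers q).comap f →* Multiplicative ℤ,
      ∀ g, q ^ (Multiplicative.toAdd (E g)) = f g := by
  have hex : ∀ g : (Subgroup.zpowers q).comap f, ∃! m : ℤ, q ^ m = f g := by
    intro g
    obtain ⟨m, hm⟩ := g.2
    refine ⟨m, hm, fun m' hm' => ?_⟩
    have h1 : q ^ m' = q ^ m := hm'.trans hm.symm
    exact (injective_zpow_iff_not_isOfFinOrder.2 hq) h1
  refine ⟨MonoidHom.mk' (fun g => Multiplicative.ofAdd (hex g).choose) (fun a b => ?_), fun g =>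
    (hex g).choose_spec.1⟩
  have ha := (hex a).choose_spec
  have hb := (hex b).choose_spec
  have hab := (hex (a * b)).choose_spec
  have h2 := hab.2 ((hex a).choose + (hex b).choose) (by
    simp only
    rw [zpow_add, ha.1, hb.1]
    exact (map_mul f _ _).symm)
  rw [← h2]
  rfl

/-- **Extensions whose kernel is a restricted direct product.** -/
theorem direct_sum (hC : Closed C) (hE : ExtClosed C) {G Q : Type} [Group G] [Group Q] (f : G →* Q)
    (hf : Function.Surjective f) (hQ : C Q) {ι : Type} {D : ι → Type} [∀ i, Group (D i)]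
    (d : Dec f.ker ι D) (hD : ∀ i, Prime (D i)) (hcy : ∀ i, ByCyclic C (D i)) : C G := by
  refine hE G Q f hf hQ (d.ker_mem hC (fun i => (hcy i).self)) (fun q hq => ?_)
  obtain ⟨E, hEq⟩ := exists_expo f hq
  have hinj : Function.Injective fun n : ℤ => q ^ n := injective_zpow_iff_not_isOfFinOrder.2 hq
  obtain ⟨t, ht⟩ := hf q
  have htm : t ∈ (Subgroup.zpowers q).comap f := by
    rw [Subgroup.mem_comap, ht]
    exact Subgroup.mem_zpowers q
  have hE1 : E ⟨t, htm⟩ = Multiplicative.ofAdd 1 := by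
    have h1 := hEq ⟨t, htm⟩
    have h2 : q ^ (Multiplicative.toAdd (E ⟨t, htm⟩)) = q ^ (1 : ℤ) := by
      rw [h1, zpow_one]
      exact ht
    exact congrArg Multiplicative.ofAdd (hinj h2)
  have hker : ∀ g, g ∈ E.ker ↔ (g : G) ∈ f.ker := by
    intro g
    rw [MonoidHom.mem_ker, MonoidHom.mem_ker, ← hEq]
    constructor
    · intro h
      rw [h]
      exact zpow_zero q
    · intro h
      have h2 : q ^ (Multiplicative.toAdd (E g)) = q ^ (0 : ℤ) := by rw [h, zpow_zero]
      exact congrArg Multiplicative.ofAdd (hinj h2)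
  have hmem : ∀ g : f.ker, (g : G) ∈ (Subgroup.zpowers q).comap f := by
    intro g
    rw [Subgroup.mem_comap, MonoidHom.mem_ker.1 g.2]
    exact one_mem _
  let e : E.ker ≃* f.ker :=
    { toFun := fun g => ⟨g.1.1, (hker g.1).1 g.2⟩
      invFun := fun g => ⟨⟨g.1, hmem g⟩, (hker ⟨g.1, hmem g⟩).2 g.2⟩
      left_inv := fun g => rfl
      right_inv := fun g => rfl
      map_mul' := fun a b => rfl }
  exact (d.trans e).over_int hD hC hcy hE1

/-- torsion-free extensions -/
theorem ext_torsionFree {G Q : Type} [Group G] [Group Q] (f : G →* Q)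
    (hQ : ∀ q : Q, IsOfFinOrder q → q = 1) {ι : Type} {D : ι → Type} [∀ i, Group (D i)]
    (d : Dec f.ker ι D) (hD : ∀ i, ∀ u : D i, IsOfFinOrder u → u = 1) (g : G)
    (hg : IsOfFinOrder g) : g = 1 := by
  have h1 : g ∈ f.ker := hQ _ (f.isOfFinOrder hg)
  have h2 : IsOfFinOrder (⟨g, h1⟩ : f.ker) := by
    rw [isOfFinOrder_iff_pow_eq_one] at hg ⊢
    obtain ⟨n, hn, hn'⟩ := hg
    exact ⟨n, hn, Subtype.ext hn'⟩
  have h3 : (⟨g, h1⟩ : f.ker) = 1 := d.ext _ _ (fun i => by
    rw [hD i _ ((d.ev i).isOfFinOrder h2), map_one])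
  exact congrArg Subtype.val h3

end Pool.Agent.Q152.WP
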