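import Pool.Agent.Y812.SS.Wr
import Pool.Agent.Y430.SS.Lf

/-!
# Restricted wreath products, and their approximation when the acting group is residually finite
-/

set_option autoImplicit false
set_option linter.unusedSectionVars false
set_option linter.style.haveILetI false

namespace Pool.Agent.Q152.WP

open Pool.Agent.Y462.SS Monoid

/-- The restricted permutational wreath product of `A` and `H` over the `H`-set `X`: pairs `(s, h)`,
`s : X → A` with finite support. -/
@[ext] structure PW (A X H : Type) [Group A] where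
  s : X → A
  fin : {x | s x ≠ 1}.Finite
  h : H

namespace PW

variable {A X H : Type} [Group A] [Group H] [MulAction H X]

instance : Mul (PW A X H) :=
  ⟨fun a b => ⟨fun x => a.s (b.h • x) * b.s x, by
    refine ((a.fin.preimage (f := fun x => b.h • x) ?_).union b.fin).subset ?_
    · exact (MulAction.injective b.h).injOn
    · intro x hx
      by_contra hc
      simp only [Set.mem_union, Set.mem_preimage, Set.mem_ofPred_eq, not_or, not_not] at hc
      exact hx (by rw [hc.1, hc.2, one_mul]), a.h * b.h⟩⟩

instance : One (PW A X H) := ⟨⟨fun _ => 1, by simp, 1⟩⟩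

instance : Inv (PW A X H) :=
  ⟨fun a => ⟨fun x => (a.s (a.h⁻¹ • x))⁻¹, by
    refine (a.fin.preimage (f := fun x => a.h⁻¹ • x) ?_).subset ?_
    · exact (MulAction.injective a.h⁻¹).injOn
    · intro x hx
      simpa using hx, a.h⁻¹⟩⟩

@[simp] theorem mul_s (a b : PW A X H) (x : X) : (a * b).s x = a.s (b.h • x) * b.s x := rfl
@[simp] theorem mul_h (a b : PW A X H) : (a * b).h = a.h * b.h := rfl
@[simp] theorem one_s (x : X) : (1 : PW A X H).s x = 1 := rfl
@[simp] theorem one_h : (1 : PW A X H).h = 1 := rfl
@[simp] theorem inv_s (a : PW A X H) (x : X) : (a⁻¹).s x = (a.s (a.h⁻¹ • x))⁻¹ := rfl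
@[simp] theorem inv_h (a : PW A X H) : (a⁻¹).h = a.h⁻¹ := rfl

theorem ext' {a b : PW A X H} (h1 : ∀ x, a.s x = b.s x) (h2 : a.h = b.h) : a = b :=
  PW.ext (funext h1) h2

instance : Group (PW A X H) :=
  Group.ofLeftAxioms
    (fun a b c => by
      refine ext' (fun x => ?_) ?_
      · simp [mul_assoc, mul_smul]
      · simp [mul_assoc])
    (fun a => by
      refine ext' (fun x => ?_) ?_
      · simp
      · simp)
    (fun a => by
      refine ext' (fun x => ?_) ?_
      · simp
      · simp)

/-- the projection to the acting group -/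
def proj (A X H : Type) [Group A] [Group H] [MulAction H X] : PW A X H →* H where
  toFun a := a.h
  map_one' := rfl
  map_mul' _ _ := rfl

end PW

section approx

variable {A H : Type} [Group A] [Group H]

open scoped Classical in
/-- the image of the letters of `A` -/
noncomputable def psiA (K : Subgroup H) : A →* Wr (H ⧸ K) (Coprod A H) where
  toFun a := ⟨fun x => if x = ((1 : H) : H ⧸ K) then Coprod.inl a else 1, 1⟩
  map_one' := by
    apply Wr.ext
    · funext x
      simp
    · rfl
  map_mul' a b := by
    apply Wr.ext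
    · funext x
      by_cases h : x = ((1 : H) : H ⧸ K)
      · simp [h]
      · simp [h]
    · simp

/-- the image of the letters of `H` -/
def psiH (K : Subgroup H) : H →* Wr (H ⧸ K) (Coprod A H) where
  toFun h := ⟨fun _ => Coprod.inr h, MulAction.toPerm h⟩
  map_one' := by
    apply Wr.ext
    · funext x
      simp
    · ext x
      simp
  map_mul' a b := by
    apply Wr.ext
    · funext x
      simp
    · ext x
      simp [mul_smul]

/-- the homomorphism of the free product to the finite wreath product -/
noncomputable def psi (K : Subgroup H) : Coprod A H →* Wr (H ⧸ K) (Coprod A H) :=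
  Coprod.lift (psiA K) (psiH K)

theorem psi_inr (K : Subgroup H) (h : H) (x : H ⧸ K) :
    (psi (A := A) K (Coprod.inr h)).s x = Coprod.inr h := by
  unfold psi
  rw [Coprod.lift_apply_inr]
  rfl

open scoped Classical in
theorem psi_inl (K : Subgroup H) (a : A) (x : H ⧸ K) :
    (psi K (Coprod.inl a)).s x = if x = ((1 : H) : H ⧸ K) then Coprod.inl a else 1 := by
  unfold psi
  rw [Coprod.lift_apply_inl]
  rfl

theorem psi_p (K : Subgroup H) (w : Coprod A H) (x : H ⧸ K) :
    (psi K w).p x = Coprod.snd w • x := by
  induction w using Coprod.induction_on generalizing x with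
  | inl a =>
    unfold psi
    rw [Coprod.lift_apply_inl, Coprod.snd_apply_inl, one_smul]
    rfl
  | inr h =>
    unfold psi
    rw [Coprod.lift_apply_inr, Coprod.snd_apply_inr]
    rfl
  | mul u v hu hv =>
    rw [map_mul, Wr.mul_p, Equiv.Perm.mul_apply, hv, hu, map_mul, mul_smul]

theorem psi_mul (K : Subgroup H) (u v : Coprod A H) (x : H ⧸ K) :
    (psi K (u * v)).s x = (psi K u).s (Coprod.snd v • x) * (psi K v).s x := by
  rw [map_mul, Wr.mul_s, psi_p]

theorem snd_psi (K : Subgroup H) (w : Coprod A H) (x : H ⧸ K) :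
    Coprod.snd ((psi K w).s x) = Coprod.snd w := by
  classical
  induction w using Coprod.induction_on generalizing x with
  | inl a =>
    rw [psi_inl]
    split_ifs <;> simp
  | inr h => rw [psi_inr]
  | mul u v hu hv => rw [psi_mul, map_mul, map_mul, hu, hv]

open scoped Classical in
/-- the homomorphism of the free product to the wreath product: letters of `A` -/
noncomputable def thA : A →* PW A H H where
  toFun a := ⟨fun x => if x = 1 then a else 1,
    (Set.finite_singleton (1 : H)).subset (fun x hx => by
      by_contra hc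
      exact hx (if_neg hc)), 1⟩
  map_one' := by
    refine PW.ext' (fun x => ?_) rfl
    simp
  map_mul' a b := by
    refine PW.ext' (fun x => ?_) (by simp)
    by_cases h : x = 1
    · simp [h]
    · simp [h]

/-- the homomorphism of the free product to the wreath product: letters of `H` -/
def thH : H →* PW A H H where
  toFun h := ⟨fun _ => 1, by simp, h⟩
  map_one' := rfl
  map_mul' a b := PW.ext' (fun x => by simp) rfl

/-- the homomorphism of the free product to the wreath product -/
noncomputable def th : Coprod A H →* PW A H H := Coprod.lift thA thH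

open scoped Classical in
theorem th_inl (a : A) (x : H) : (th (Coprod.inl a)).s x = if x = 1 then a else 1 := by
  unfold th
  rw [Coprod.lift_apply_inl]
  rfl

theorem th_inr (h : H) (x : H) : (th (A := A) (Coprod.inr h)).s x = 1 := by
  unfold th
  rw [Coprod.lift_apply_inr]
  rfl

theorem th_h (w : Coprod A H) : (th w).h = Coprod.snd w := by
  induction w using Coprod.induction_on with
  | inl a =>
    unfold th
    rw [Coprod.lift_apply_inl, Coprod.snd_apply_inl]
    rfl
  | inr h =>
    unfold th
    rw [Coprod.lift_apply_inr, Coprod.snd_apply_inr]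
    rfl
  | mul u v hu hv => rw [map_mul, map_mul, PW.mul_h, hu, hv]

theorem th_mul (u v : Coprod A H) (x : H) :
    (th (u * v)).s x = (th u).s (Coprod.snd v * x) * (th v).s x := by
  rw [map_mul, PW.mul_s, th_h]
  rfl

/-- the labels of the wreath product can be read off in the finite wreath products -/
theorem th_psi (K : Subgroup H) (w : Coprod A H) (y : H) :
    (th ((psi K w).s (y : H ⧸ K))).s y = (th w).s y := by
  classical
  induction w using Coprod.induction_on generalizing y with
  | inl a =>
    rw [psi_inl, th_inl]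
    by_cases hy : y = 1
    · subst hy
      rw [if_pos rfl, if_pos rfl, th_inl, if_pos rfl]
    · rw [if_neg hy]
      split_ifs
      · rw [th_inl, if_neg hy]
      · rw [map_one, PW.one_s]
  | inr h => rw [psi_inr]
  | mul u v hu hv =>
    rw [psi_mul, th_mul, th_mul, snd_psi, hv]
    congr 1
    rw [← hu]
    rfl

/-- the finer finite wreath products can be read off in the free product -/
theorem psi_psi {K K' : Subgroup H} (hK : K' ≤ K) (w : Coprod A H) (y : H) :
    (psi K' ((psi K w).s (y : H ⧸ K))).s (y : H ⧸ K') = (psi K' w).s (y : H ⧸ K') := by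
  classical
  induction w using Coprod.induction_on generalizing y with
  | inl a =>
    rw [psi_inl, psi_inl]
    by_cases hy : ((y : H) : H ⧸ K') = ((1 : H) : H ⧸ K')
    · have hy' : ((y : H) : H ⧸ K) = ((1 : H) : H ⧸ K) := by
        rw [QuotientGroup.eq] at hy ⊢
        exact hK hy
      rw [if_pos hy, if_pos hy', psi_inl, if_pos hy]
    · rw [if_neg hy]
      split_ifs
      · rw [psi_inl, if_neg hy]
      · rw [map_one, Wr.one_s]
  | inr h => rw [psi_inr, psi_inr]
  | mul u v hu hv =>
    rw [psi_mul, psi_mul, psi_mul, snd_psi, hv]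
    congr 1
    exact hu (Coprod.snd v * y)

/-- if the positions of the letters of `A` are separated by `K`, then the sections are given by the
labels of the wreath product -/
theorem far (w : Coprod A H) : ∃ P : Finset H, ∀ (K : Subgroup H) (y : H),
    (∀ z ∈ P, ((z : H) : H ⧸ K) = ((y : H) : H ⧸ K) → z = y) →
      (psi K w).s (y : H ⧸ K) =
        Coprod.inr (Coprod.snd w * y) * Coprod.inl ((th w).s y) * Coprod.inr y⁻¹ := by
  classical
  induction w using Coprod.induction_on with
  | inl a =>
    refine ⟨{1}, fun K y hy => ?_⟩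
    have hy := hy 1 (Finset.mem_singleton_self 1)
    rw [psi_inl, th_inl, Coprod.snd_apply_inl, one_mul]
    by_cases h1 : y = 1
    · subst h1
      rw [if_pos rfl, if_pos rfl, map_one, inv_one, map_one, one_mul, mul_one]
    · rw [if_neg h1, if_neg (fun h => h1 (hy h.symm).symm), map_one, mul_one, ← map_mul,
        mul_inv_cancel, map_one]
  | inr h =>
    refine ⟨∅, fun K y _ => ?_⟩
    rw [psi_inr, th_inr, Coprod.snd_apply_inr, map_one, mul_one, ← map_mul, mul_assoc,
      mul_inv_cancel, mul_one]
  | mul u v hu hv =>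
    obtain ⟨P, hP⟩ := hu
    obtain ⟨P', hP'⟩ := hv
    refine ⟨P' ∪ P.image (fun z => (Coprod.snd v)⁻¹ * z), fun K y hy => ?_⟩
    rw [psi_mul, th_mul, hP' K y (fun z hz => hy z (Finset.mem_union_left _ hz))]
    have h2 : (psi K u).s (Coprod.snd v • ((y : H) : H ⧸ K)) =
        Coprod.inr (Coprod.snd u * (Coprod.snd v * y)) * Coprod.inl ((th u).s (Coprod.snd v * y)) *
          Coprod.inr (Coprod.snd v * y)⁻¹ := by
      refine hP K (Coprod.snd v * y) (fun z hz h => ?_)
      have h3 := hy ((Coprod.snd v)⁻¹ * z)
        (Finset.mem_union_right _ (Finset.mem_image_of_mem _ hz)) (by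
          rw [QuotientGroup.eq] at h ⊢
          simpa [mul_assoc] using h)
      rw [← h3, mul_inv_cancel_left]
    rw [h2]
    simp only [map_mul, map_inv, mul_inv_rev, mul_assoc]
    simp

/-- the kernels of the homomorphisms to the finite wreath products increase -/
theorem ker_mono {K K' : Subgroup H} (hK : K' ≤ K) :
    (psi (A := A) K).ker ≤ (psi K').ker := by
  intro w hw
  rw [MonoidHom.mem_ker] at hw ⊢
  apply Wr.ext
  · funext x
    induction x using QuotientGroup.induction_on with
    | H y =>
      rw [← psi_psi hK w y, hw, Wr.one_s, map_one]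
  · have h1 : Coprod.snd w = 1 := by
      rw [← snd_psi K w ((1 : H) : H ⧸ K), hw, Wr.one_s, map_one]
    ext x
    rw [psi_p, h1, one_smul]
    rfl

/-- they are contained in the kernel of the homomorphism to the wreath product -/
theorem ker_le (K : Subgroup H) : (psi (A := A) K).ker ≤ (th (A := A) (H := H)).ker := by
  intro w hw
  rw [MonoidHom.mem_ker] at hw ⊢
  refine PW.ext' (fun y => ?_) ?_
  · rw [← th_psi K w y, hw, Wr.one_s, map_one]
  · rw [th_h, ← snd_psi K w ((1 : H) : H ⧸ K), hw, Wr.one_s, map_one]
    rfl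

/-- `H` is residually finite -/
def ResFin (H : Type) [Group H] : Prop := ∀ h : H, h ≠ 1 → ∃ K : Subgroup H, K.FiniteIndex ∧ h ∉ K

theorem exists_sep (hH : ResFin H) (P : Finset H) : ∃ K : Subgroup H, K.FiniteIndex ∧
    ∀ y ∈ P, ∀ z ∈ P, ((z : H) : H ⧸ K) = ((y : H) : H ⧸ K) → z = y := by
  classical
  have key : ∀ Q : Finset H, (∀ h ∈ Q, h ≠ 1) → ∃ K : Subgroup H, K.FiniteIndex ∧ ∀ h ∈ Q, h ∉ K := by
    intro Q
    induction Q using Finset.induction_on with
    | empty => exact fun _ => ⟨⊤, inferInstance, fun h hh => absurd hh (Finset.notMem_empty h)⟩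
    | insert a Q _ ih =>
      intro hQ
      obtain ⟨K, hK, hK'⟩ := ih (fun h hh => hQ h (Finset.mem_insert_of_mem hh))
      obtain ⟨L, hL, hL'⟩ := hH a (hQ a (Finset.mem_insert_self _ _))
      refine ⟨K ⊓ L, inferInstance, fun h hh hm => ?_⟩
      rcases Finset.mem_insert.1 hh with rfl | h2
      · exact hL' hm.2
      · exact hK' h h2 hm.1
  obtain ⟨K, hK, hK'⟩ := key (((P ×ˢ P).image fun p => p.1⁻¹ * p.2).filter (fun h => h ≠ 1))
    (fun h hh => (Finset.mem_filter.1 hh).2)
  refine ⟨K, hK, fun y hy z hz h => ?_⟩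
  by_contra hne
  rw [QuotientGroup.eq] at h
  refine hK' (z⁻¹ * y) (Finset.mem_filter.2 ⟨Finset.mem_image.2 ⟨(z, y),
    Finset.mem_product.2 ⟨hz, hy⟩, rfl⟩, fun h1 => hne (inv_mul_eq_one.1 h1)⟩) h

/-- if `H` is residually finite, the kernels exhaust the kernel of the homomorphism to the wreath
product -/
theorem exists_ker (hH : ResFin H) (w : Coprod A H) (hw : th w = 1) :
    ∃ K : Subgroup H, K.FiniteIndex ∧ psi K w = 1 := by
  classical
  obtain ⟨P, hP⟩ := far w
  obtain ⟨K, hK, hK'⟩ := exists_sep hH P
  refine ⟨K, hK, ?_⟩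
  have h1 : Coprod.snd w = 1 := by rw [← th_h, hw, PW.one_h]
  have hall : ∀ y : H, ∃ z : H, ((z : H) : H ⧸ K) = ((y : H) : H ⧸ K) ∧
      ∀ z' ∈ P, ((z' : H) : H ⧸ K) = ((z : H) : H ⧸ K) → z' = z := by
    intro y
    by_cases h : ∃ z ∈ P, ((z : H) : H ⧸ K) = ((y : H) : H ⧸ K)
    · obtain ⟨z, hz, hzy⟩ := h
      exact ⟨z, hzy, fun z' hz' h' => hK' z hz z' hz' h'⟩
    · push Not at h
      exact ⟨y, rfl, fun z' hz' h' => absurd h' (h z' hz')⟩
  apply Wr.ext
  · funext x
    induction x using QuotientGroup.induction_on with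
    | H y =>
      obtain ⟨z, hzy, hz⟩ := hall y
      have h2 := hP K z hz
      rw [hzy] at h2
      rw [h2, hw, h1, PW.one_s, map_one, one_mul, mul_one, ← map_mul, mul_inv_cancel, map_one,
        Wr.one_s]
  · ext x
    rw [psi_p, h1, one_smul]
    rfl

/-- the free product maps onto the wreath product -/
theorem th_surj : Function.Surjective (th (A := A) (H := H)) := by
  classical
  have hpt : ∀ (y : H) (a : A), ∃ w : Coprod A H, (th w).h = 1 ∧
      ∀ x, (th w).s x = if x = y then a else 1 := by
    intro y a
    refine ⟨Coprod.inr y * Coprod.inl a * Coprod.inr y⁻¹, ?_, fun x => ?_⟩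
    · rw [th_h]
      simp
    · rw [th_mul, th_mul, th_inr, th_inr, th_inl, Coprod.snd_apply_inr]
      simp only [one_mul, mul_one, inv_mul_eq_one]
      by_cases h : x = y
      · rw [if_pos h, if_pos h.symm]
      · rw [if_neg h, if_neg (fun h' => h h'.symm)]
  have key : ∀ (F : Finset H) (s : H → A), (∀ x, x ∉ F → s x = 1) →
      ∃ w : Coprod A H, (th w).h = 1 ∧ ∀ x, (th w).s x = s x := by
    intro F
    induction F using Finset.induction_on with
    | empty =>
      intro s hs
      refine ⟨1, by rw [map_one]; rfl, fun x => ?_⟩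
      rw [map_one, hs x (Finset.notMem_empty x)]
      rfl
    | insert a F ha ih =>
      intro s hs
      obtain ⟨u, hu, hu'⟩ := ih (fun x => if x = a then 1 else s x) (fun x hx => by
        by_cases h : x = a
        · simp [h]
        · simp only [if_neg h]
          exact hs x (fun h' => (Finset.mem_insert.1 h').elim h hx))
      obtain ⟨v, hv, hv'⟩ := hpt a (s a)
      refine ⟨u * v, ?_, fun x => ?_⟩
      · rw [map_mul, PW.mul_h, hu, hv, one_mul]
      · rw [map_mul, PW.mul_s, hv, one_smul, hu', hv']
        by_cases h : x = a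
        · simp [h]
        · simp [h]
  intro g
  obtain ⟨w, hw, hw'⟩ := key g.fin.toFinset g.s (fun x hx => by
    by_contra h
    exact hx (g.fin.mem_toFinset.2 h))
  refine ⟨Coprod.inr g.h * w, PW.ext' (fun x => ?_) ?_⟩
  · rw [map_mul, PW.mul_s, hw', hw, one_smul, th_inr, one_mul]
  · rw [map_mul, PW.mul_h, hw, th_h, Coprod.snd_apply_inr, mul_one]

/-- **Wreath products with residually finite groups.** -/
theorem wreath_resFin {C : ∀ (G : Type) [Group G], Prop} (hC : Closed C) (hA : C A) (hCH : C H)
    (hH : ResFin H) : C (PW A H H) := by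
  classical
  let I : Type := (OrderDual {K : Subgroup H // K.FiniteIndex})
  let N : I → Subgroup (Coprod A H) := fun i => (psi (OrderDual.ofDual i).1).ker
  have hN : ∀ i j : I, i ≤ j → N i ≤ N j := fun i j hij => ker_mono hij
  haveI hne : Nonempty I := ⟨OrderDual.toDual ⟨⊤, inferInstance⟩⟩
  refine hC.colim I ?_ (fun i => Coprod A H ⧸ N i)
    (fun i j hij => QuotientGroup.map (N i) (N j) (MonoidHom.id _) (hN i j hij))
    (PW A H H) (fun i => QuotientGroup.lift (N i) th (fun w hw => ker_le _ hw)) ?_ ?_ ?_ ?_ ?_ ?_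
  · intro i j
    refine ⟨OrderDual.toDual ⟨(OrderDual.ofDual i).1 ⊓ (OrderDual.ofDual j).1, ?_⟩, ?_, ?_⟩
    · haveI := (OrderDual.ofDual i).2
      haveI := (OrderDual.ofDual j).2
      infer_instance
    · exact (inf_le_left : (OrderDual.ofDual i).1 ⊓ (OrderDual.ofDual j).1 ≤ (OrderDual.ofDual i).1)
    · exact (inf_le_right : (OrderDual.ofDual i).1 ⊓ (OrderDual.ofDual j).1 ≤ (OrderDual.ofDual j).1)
  · intro i h x
    induction x using QuotientGroup.induction_on with
    | H w => rfl
  · intro i j k h h' x
    induction x using QuotientGroup.induction_on with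
    | H w => rfl
  · intro i j h x
    induction x using QuotientGroup.induction_on with
    | H w => rfl
  · intro y
    obtain ⟨w, hw⟩ := th_surj y
    exact ⟨hne.some, (w : Coprod A H ⧸ N hne.some), hw⟩
  · intro i x hx
    induction x using QuotientGroup.induction_on with
    | H w =>
      have hw : th w = 1 := hx
      obtain ⟨K, hK, hK'⟩ := exists_ker hH w hw
      haveI := hK
      haveI := (OrderDual.ofDual i).2
      refine ⟨OrderDual.toDual ⟨(OrderDual.ofDual i).1 ⊓ K, inferInstance⟩, ?_, ?_⟩
      · exact (inf_le_left : (OrderDual.ofDual i).1 ⊓ K ≤ (OrderDual.ofDual i).1)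
      · refine (QuotientGroup.eq_one_iff w).2 ?_
        exact ker_mono (inf_le_right : (OrderDual.ofDual i).1 ⊓ K ≤ K) hK'
  · intro i
    haveI := (OrderDual.ofDual i).2
    refine hC.of_injective _ (Wr (H ⧸ (OrderDual.ofDual i).1) (Coprod A H))
      (QuotientGroup.kerLift (psi (OrderDual.ofDual i).1)) (QuotientGroup.kerLift_injective _) ?_
    exact Pool.Agent.Y812.SS.t_wr C hC _ _ inferInstance (hC.coprod A H hA hCH)

end approx

end Pool.Agent.Q152.WP
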