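import Pool.Agent.Q152.WP.Hnn

/-!
# Finitary permutations; homomorphisms to the integers with locally finite kernel
-/

set_option autoImplicit false
set_option linter.unusedSectionVars false
set_option linter.style.haveILetI false

namespace Pool.Agent.Q152.WP

open Pool.Agent.Y462.SS

variable {C : ∀ (G : Type) [Group G], Prop}

/-- the finitely generated subgroups of a group of finitary permutations are finite -/
theorem finitary {X : Type} {P : Subgroup (Equiv.Perm X)} (N : Subgroup P)
    (hN : ∀ g ∈ N, {x | (g : Equiv.Perm X) x ≠ x}.Finite) : LocFin N := by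
  classical
  intro s hs
  -- the support of the set
  obtain ⟨S, hS, hS'⟩ : ∃ S : Set X, S.Finite ∧ ∀ g ∈ s, ∀ x, x ∉ S → (g : Equiv.Perm X) x = x := by
    refine ⟨⋃ g ∈ s, {x | (g : Equiv.Perm X) x ≠ x}, s.finite_toSet.biUnion (fun g hg => hN g (hs g hg)), ?_⟩
    intro g hg x hx
    by_contra h
    exact hx (Set.mem_biUnion hg h)
  let L : Subgroup P :=
    { carrier := {g | ∀ x, x ∉ S → (g : Equiv.Perm X) x = x}
      one_mem' := fun x _ => rfl
      mul_mem' := by
        intro a b ha hb x hx
        change (a : Equiv.Perm X) ((b : Equiv.Perm X) x) = x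
        rw [hb x hx, ha x hx]
      inv_mem' := by
        intro a ha x hx
        change (a : Equiv.Perm X)⁻¹ x = x
        rw [Equiv.Perm.inv_eq_iff_eq]
        exact (ha x hx).symm }
  have hle : Subgroup.closure (s : Set P) ≤ L := (Subgroup.closure_le L).2 (fun g hg => hS' g hg)
  have hL : Finite L := by
    haveI := hS.to_subtype
    have hmem : ∀ (g : L) (x : S), ((g : P) : Equiv.Perm X) x ∈ S := by
      intro g x
      by_contra h
      have h1 := g.2 _ h
      have h2 : ((g : P) : Equiv.Perm X) x = x := ((g : P) : Equiv.Perm X).injective h1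
      rw [h2] at h
      exact h x.2
    refine Finite.of_injective (fun (g : L) (x : S) => (⟨((g : P) : Equiv.Perm X) x, hmem g x⟩ : S)) ?_
    intro g h hgh
    apply Subtype.ext
    apply Subtype.ext
    ext x
    by_cases hx : x ∈ S
    · exact congrArg Subtype.val (congrFun hgh ⟨x, hx⟩)
    · rw [g.2 x hx, h.2 x hx]
  exact Finite.of_injective (Subgroup.inclusion hle) (Subgroup.inclusion_injective hle)

/-- homomorphisms to the integers with locally finite kernel -/
theorem lf_int (hC : Closed C) {G : Type} [Group G] (f : G →* Multiplicative ℤ)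
    (hK : LocFin f.ker) : C G := by
  obtain ⟨⟨q, τ, hτ⟩, hq⟩ := IsCyclic.exists_generator (α := f.range)
  have hgen : ∀ g : G, ∃ m : ℤ, f g = q ^ m := by
    intro g
    obtain ⟨m, hm⟩ := hq ⟨f g, g, rfl⟩
    exact ⟨m, (congrArg Subtype.val hm).symm⟩
  by_cases h0 : q = 1
  · refine Pool.Agent.Y430.SS.t_lf C hC G (fun s => hK s (fun x _ => ?_))
    obtain ⟨m, hm⟩ := hgen x
    rw [MonoidHom.mem_ker, hm, h0, one_zpow]
  · refine lf_by_cyclic τ (K := f.ker) hC hK ?_ ?_ ?_ ?_
    · intro x hx
      exact (MonoidHom.normal_ker f).conj_mem x hx τ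
    · intro x hx
      have := (MonoidHom.normal_ker f).conj_mem x hx τ⁻¹
      rwa [inv_inv] at this
    · intro g
      obtain ⟨m, hm⟩ := hgen g
      refine ⟨g * (τ ^ m)⁻¹, ?_, m, by group⟩
      rw [MonoidHom.mem_ker, map_mul, map_inv, map_zpow, hτ, hm, mul_inv_cancel]
    · intro m hm
      rw [MonoidHom.mem_ker, map_zpow, hτ] at hm
      have h1 : m * Multiplicative.toAdd q = 0 := by
        have := congrArg Multiplicative.toAdd hm
        rw [toAdd_zpow, smul_eq_mul] at this
        exact this
      rcases mul_eq_zero.1 h1 with h2 | h2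
      · exact h2
      · exact absurd (Multiplicative.toAdd.injective h2) h0

end Pool.Agent.Q152.WP
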