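import Pool.Agent.Q152.WP.Perm
import Pool.Agent.Y179.SS.Free

/-!
# HNN extensions of finite groups, and extensions with locally finite kernel
-/

set_option autoImplicit false
set_option linter.unusedSectionVars false
set_option linter.style.haveILetI false

namespace Pool.Agent.Q152.WP

open Pool.Agent.Y462.SS Monoid HNNExtension

variable {C : ∀ (G : Type) [Group G], Prop}

section finite

variable {F : Type} [Group F] [Finite F] {A B : Subgroup F} (φ : A ≃* B)

/-- the numbers of cosets agree -/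
theorem coset_equiv (φ : A ≃* B) : Nonempty (F ⧸ A ≃ F ⧸ B) := by
  have h1 : Nat.card (F ⧸ A) * Nat.card A = Nat.card F := (Subgroup.card_eq_card_quotient_mul_card_subgroup A).symm
  have h2 : Nat.card (F ⧸ B) * Nat.card B = Nat.card F := (Subgroup.card_eq_card_quotient_mul_card_subgroup B).symm
  have h3 : Nat.card A = Nat.card B := Nat.card_congr φ.toEquiv
  rw [← h3] at h2
  have h4 : Nat.card (F ⧸ A) = Nat.card (F ⧸ B) :=
    Nat.eq_of_mul_eq_mul_right Nat.card_pos (h1.trans h2.symm)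
  haveI := Fintype.ofFinite (F ⧸ A)
  haveI := Fintype.ofFinite (F ⧸ B)
  rw [Nat.card_eq_fintype_card, Nat.card_eq_fintype_card] at h4
  exact ⟨Fintype.equivOfCardEq h4⟩

/-- an element of the coset -/
theorem out_mem {D : Subgroup F} (y : F) : ((y : F ⧸ D).out)⁻¹ * y ∈ D := by
  rw [← QuotientGroup.eq]
  exact Quotient.out_eq' _

/-- the permutation of `F` which conjugates the right multiplications by `a` and `φ a` -/
noncomputable def tau0 (y : F) : F :=
  ((coset_equiv φ).some (y : F ⧸ A)).out * (φ ⟨((y : F ⧸ A).out)⁻¹ * y, out_mem y⟩ : F)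

theorem tau0_mul (y : F) (a : A) : tau0 φ (y * a) = tau0 φ y * φ a := by
  have h1 : ((y * (a : F) : F) : F ⧸ A) = (y : F ⧸ A) := by
    rw [QuotientGroup.eq]
    have := A.inv_mem a.2
    simpa [mul_assoc] using this
  have e : (⟨(((y * (a : F) : F) : F ⧸ A).out)⁻¹ * (y * a), out_mem _⟩ : A) =
      ⟨((y : F ⧸ A).out)⁻¹ * y, out_mem y⟩ * a :=
    Subtype.ext (by simp only [Subgroup.coe_mul]; rw [h1, mul_assoc])
  unfold tau0
  rw [e, h1, map_mul, Subgroup.coe_mul, mul_assoc]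

theorem tau0_coset (y : F) : ((tau0 φ y : F) : F ⧸ B) = (coset_equiv φ).some (y : F ⧸ A) := by
  unfold tau0
  conv_rhs => rw [← Quotient.out_eq' ((coset_equiv φ).some (y : F ⧸ A))]
  rw [eq_comm]
  refine QuotientGroup.eq.2 ?_
  rw [inv_mul_cancel_left]
  exact (φ _).2

theorem tau0_inj : Function.Injective (tau0 φ) := by
  intro y z h
  have h1 : (y : F ⧸ A) = (z : F ⧸ A) := by
    apply (coset_equiv φ).some.injective
    rw [← tau0_coset, ← tau0_coset, h]
  have h2 : y⁻¹ * z ∈ A := QuotientGroup.eq.1 h1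
  have h3 := tau0_mul φ y ⟨y⁻¹ * z, h2⟩
  rw [mul_inv_cancel_left, ← h] at h3
  have h4 : ((φ ⟨y⁻¹ * z, h2⟩ : B) : F) = 1 := by
    have := h3.symm
    rwa [mul_eq_left] at this
  have h5 : (⟨y⁻¹ * z, h2⟩ : A) = 1 := by
    apply φ.injective
    rw [map_one]
    exact Subtype.ext h4
  have h6 := congrArg Subtype.val h5
  simp only [Subgroup.coe_one] at h6
  exact (inv_mul_eq_one.1 h6)

/-- the permutation -/
noncomputable def tau : Equiv.Perm F :=
  Equiv.ofBijective (tau0 φ) (Finite.injective_iff_bijective.1 (tau0_inj φ))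

theorem tau_mul (y : F) (a : A) : tau φ (y * a) = tau φ y * φ a := tau0_mul φ y a

/-- the letters of `F` -/
def fF (A : Subgroup F) : F →* Wr F (FreeGroup (F ⧸ A)) where
  toFun x := ⟨fun _ => 1, Equiv.mulRight x⁻¹⟩
  map_one' := by
    refine Wr.ext rfl ?_
    ext y
    simp
  map_mul' a b := by
    refine Wr.ext (funext fun x => by simp) ?_
    ext y
    simp [mul_assoc]

/-- the stable letter -/
noncomputable def fT : Wr F (FreeGroup (F ⧸ A)) := ⟨fun y => FreeGroup.of (y : F ⧸ A), tau φ⟩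

/-- the homomorphism of the HNN extension to the finite wreath product of a free group -/
noncomputable def big : HNNExtension F A B φ →* Wr F (FreeGroup (F ⧸ A)) :=
  HNNExtension.lift (fF A) (fT φ) (by
    intro a
    refine Wr.ext (funext fun y => ?_) ?_
    · change FreeGroup.of (((y * (a : F)⁻¹ : F)) : F ⧸ A) * 1 = 1 * FreeGroup.of (y : F ⧸ A)
      rw [mul_one, one_mul]
      congr 1
      rw [QuotientGroup.eq]
      simp
    · ext y
      change tau φ (y * (a : F)⁻¹) = tau φ y * ((φ a : B) : F)⁻¹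
      have := tau_mul φ (y * (a : F)⁻¹) a
      rw [inv_mul_cancel_right] at this
      rw [this, mul_inv_cancel_right])

/-- the inverse on the stabilisers -/
noncomputable def rho : FreeGroup (F ⧸ A) →* HNNExtension F A B φ :=
  FreeGroup.lift fun q => of (tau φ q.out) * t * of q.out⁻¹

theorem rho_of (y : F) : rho φ (FreeGroup.of (y : F ⧸ A)) = of (tau φ y) * t * of y⁻¹ := by
  unfold rho
  rw [FreeGroup.lift_apply_of]
  obtain ⟨a, ha⟩ : ∃ a : A, y = (y : F ⧸ A).out * a :=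
    ⟨⟨_, out_mem y⟩, by simp⟩
  conv_rhs => rw [ha]
  rw [tau_mul, map_mul, mul_inv_rev, map_mul]
  have h1 : (of ((φ a : B) : F) : HNNExtension F A B φ) * t * of (a : F)⁻¹ = t := by
    rw [← t_mul_of, mul_assoc, ← map_mul, mul_inv_cancel, map_one, mul_one]
  calc (of (tau φ (y : F ⧸ A).out) : HNNExtension F A B φ) * t * of (y : F ⧸ A).out⁻¹
      = of (tau φ (y : F ⧸ A).out) * (of ((φ a : B) : F) * t * of (a : F)⁻¹) *
          of (y : F ⧸ A).out⁻¹ := by rw [h1]
    _ = _ := by simp only [mul_assoc]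

theorem big_spec (w : HNNExtension F A B φ) : ∀ y : F,
    w * of y⁻¹ = of ((big φ w).p y)⁻¹ * rho φ ((big φ w).s y) := by
  induction w using HNNExtension.induction_on with
  | of x =>
    intro y
    have h1 : big φ (of x) = fF A x := HNNExtension.lift_of _ _ _ x
    rw [h1]
    change of x * of y⁻¹ = of (y * x⁻¹)⁻¹ * rho φ 1
    rw [map_one, mul_one, ← map_mul, mul_inv_rev, inv_inv]
  | t =>
    intro y
    have h1 : big φ t = fT φ := HNNExtension.lift_t _ _ _
    rw [h1]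
    change t * of y⁻¹ = of (tau φ y)⁻¹ * rho φ (FreeGroup.of (y : F ⧸ A))
    rw [rho_of, mul_assoc, ← mul_assoc (of (tau φ y)⁻¹), ← map_mul, inv_mul_cancel, map_one, one_mul]
  | mul u v hu hv =>
    intro y
    rw [mul_assoc, hv, ← mul_assoc, hu, map_mul, Wr.mul_p, Wr.mul_s, map_mul, mul_assoc]
    rfl
  | inv u hu =>
    intro y
    have h1 := hu ((big φ u).p⁻¹ y)
    have h2 : (big φ u).p ((big φ u).p⁻¹ y) = y := (big φ u).p.apply_symm_apply y
    rw [h2] at h1
    have hb : big φ u⁻¹ = (big φ u)⁻¹ := map_inv _ _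
    rw [hb, Wr.inv_p, Wr.inv_s, map_inv (rho φ), eq_mul_inv_iff_mul_eq, mul_assoc,
      inv_mul_eq_iff_eq_mul]
    exact h1.symm

theorem big_inj : Function.Injective (big φ) := by
  rw [injective_iff_map_eq_one]
  intro w hw
  have h1 := big_spec φ w 1
  rw [hw] at h1
  simpa using h1

/-- HNN extensions of finite groups -/
theorem hnn_finite (hC : Closed C) : C (HNNExtension F A B φ) :=
  hC.of_injective _ _ (big φ) (big_inj φ)
    (Pool.Agent.Y812.SS.t_wr C hC F _ inferInstance (Pool.Agent.Y179.SS.t_free C hC _))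

end finite

section cyclic

variable {G : Type} [Group G] (τ : G)

/-- the associated subgroup -/
def As (F : Subgroup G) : Subgroup F where
  carrier := {x | τ * x * τ⁻¹ ∈ F}
  one_mem' := by simp
  mul_mem' := by
    intro a b ha hb
    have := F.mul_mem ha hb
    change τ * ((a : G) * (b : G)) * τ⁻¹ ∈ F
    simpa [mul_assoc] using this
  inv_mem' := by
    intro a ha
    have := F.inv_mem ha
    change τ * (a : G)⁻¹ * τ⁻¹ ∈ F
    simpa [mul_assoc] using this

/-- the other associated subgroup -/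
def Bs (F : Subgroup G) : Subgroup F where
  carrier := {x | τ⁻¹ * x * τ ∈ F}
  one_mem' := by simp
  mul_mem' := by
    intro a b ha hb
    have := F.mul_mem ha hb
    change τ⁻¹ * ((a : G) * (b : G)) * τ ∈ F
    simpa [mul_assoc] using this
  inv_mem' := by
    intro a ha
    have := F.inv_mem ha
    change τ⁻¹ * (a : G)⁻¹ * τ ∈ F
    simpa [mul_assoc] using this

/-- conjugation by `τ` -/
def cj (F : Subgroup G) : As τ F ≃* Bs τ F where
  toFun a := ⟨⟨τ * a.1 * τ⁻¹, a.2⟩, by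
    change τ⁻¹ * (τ * (a.1 : G) * τ⁻¹) * τ ∈ F
    have h : τ⁻¹ * (τ * (a.1 : G) * τ⁻¹) * τ = a.1 := by group
    rw [h]
    exact a.1.2⟩
  invFun b := ⟨⟨τ⁻¹ * b.1 * τ, b.2⟩, by
    change τ * (τ⁻¹ * (b.1 : G) * τ) * τ⁻¹ ∈ F
    have h : τ * (τ⁻¹ * (b.1 : G) * τ) * τ⁻¹ = b.1 := by group
    rw [h]
    exact b.1.2⟩
  left_inv a := by
    apply Subtype.ext
    apply Subtype.ext
    change τ⁻¹ * (τ * (a.1 : G) * τ⁻¹) * τ = a.1
    group
  right_inv b := by
    apply Subtype.ext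
    apply Subtype.ext
    change τ * (τ⁻¹ * (b.1 : G) * τ) * τ⁻¹ = b.1
    group
  map_mul' a b := by
    apply Subtype.ext
    apply Subtype.ext
    change τ * ((a.1 : G) * (b.1 : G)) * τ⁻¹ = (τ * (a.1 : G) * τ⁻¹) * (τ * (b.1 : G) * τ⁻¹)
    group

/-- the HNN extension of `F` given by the conjugation by `τ` -/
abbrev HN (F : Subgroup G) : Type := HNNExtension F (As τ F) (Bs τ F) (cj τ F)

/-- the relation -/
theorem hn_rel (F : Subgroup G) (x : G) (h : x ∈ F) (h' : τ * x * τ⁻¹ ∈ F) :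
    (t : HN τ F) * of (⟨x, h⟩ : F) = of (⟨τ * x * τ⁻¹, h'⟩ : F) * t :=
  t_mul_of (φ := cj τ F) ⟨⟨x, h⟩, h'⟩

/-- the homomorphism to `G` -/
noncomputable def down (F : Subgroup G) : HN τ F →* G :=
  HNNExtension.lift F.subtype τ (by
    intro a
    change τ * (a.1 : G) = τ * (a.1 : G) * τ⁻¹ * τ
    group)

/-- the homomorphisms between the HNN extensions -/
noncomputable def up {F F' : Subgroup G} (h : F ≤ F') : HN τ F →* HN τ F' :=
  HNNExtension.lift (of.comp (Subgroup.inclusion h)) t (by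
    intro a
    exact hn_rel τ F' (a.1 : G) (h a.1.2) (h a.2))

theorem up_of {F F' : Subgroup G} (h : F ≤ F') (x : F) :
    up τ h (of x) = of (⟨x.1, h x.2⟩ : F') := HNNExtension.lift_of _ _ _ x

theorem up_t {F F' : Subgroup G} (h : F ≤ F') : up τ h (t : HN τ F) = t :=
  HNNExtension.lift_t _ _ _

theorem down_of (F : Subgroup G) (x : F) : down τ F (of x) = x := HNNExtension.lift_of _ _ _ x

theorem down_t (F : Subgroup G) : down τ F t = τ := HNNExtension.lift_t _ _ _

theorem up_refl (F : Subgroup G) (h : F ≤ F) : up τ h = MonoidHom.id _ := by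
  refine HNNExtension.hom_ext ?_ ?_
  · ext x
    exact up_of τ h x
  · exact up_t τ h

theorem up_up {F F' F'' : Subgroup G} (h : F ≤ F') (h' : F' ≤ F'') :
    (up τ h').comp (up τ h) = up τ (h.trans h') := by
  refine HNNExtension.hom_ext ?_ ?_
  · ext x
    change up τ h' (up τ h (of x)) = up τ (h.trans h') (of x)
    rw [up_of, up_of, up_of]
  · change up τ h' (up τ h t) = up τ (h.trans h') t
    rw [up_t, up_t, up_t]

theorem up_up_apply {F F' F'' : Subgroup G} (h : F ≤ F') (h' : F' ≤ F'') (w : HN τ F) :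
    up τ h' (up τ h w) = up τ (h.trans h') w := DFunLike.congr_fun (up_up τ h h') w

theorem down_up {F F' : Subgroup G} (h : F ≤ F') :
    (down τ F').comp (up τ h) = down τ F := by
  refine HNNExtension.hom_ext ?_ ?_
  · ext x
    change down τ F' (up τ h (of x)) = down τ F (of x)
    rw [up_of, down_of, down_of]
  · change down τ F' (up τ h t) = down τ F t
    rw [up_t, down_t, down_t]

/-- `τ ^ m` and `x` can be interchanged in the HNN extension of `F` -/
def Gd (F : Subgroup G) (x : G) (m : ℤ) : Prop :=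
  ∃ (h : x ∈ F) (h' : τ ^ m * x * (τ ^ m)⁻¹ ∈ F),
    (t : HN τ F) ^ m * of (⟨x, h⟩ : F) = of (⟨τ ^ m * x * (τ ^ m)⁻¹, h'⟩ : F) * t ^ m

theorem Gd.mono {F F' : Subgroup G} (hF : F ≤ F') {x : G} {m : ℤ} (h : Gd τ F x m) :
    Gd τ F' x m := by
  obtain ⟨h1, h2, h3⟩ := h
  refine ⟨hF h1, hF h2, ?_⟩
  have h4 := congrArg (up τ hF) h3
  rw [map_mul, map_mul, map_zpow, up_t, up_of, up_of] at h4
  exact h4

theorem Gd.step {F : Subgroup G} {x : G} {m : ℤ} (h1 : Gd τ F x 1)
    (h : Gd τ F (τ * x * τ⁻¹) m) : Gd τ F x (m + 1) := by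
  obtain ⟨a1, a2, a3⟩ := h1
  obtain ⟨b1, b2, b3⟩ := h
  have e1 : τ ^ (m + 1) * x * (τ ^ (m + 1))⁻¹ = τ ^ m * (τ * x * τ⁻¹) * (τ ^ m)⁻¹ := by
    rw [zpow_add_one]
    group
  refine ⟨a1, by rw [e1]; exact b2, ?_⟩
  have e2 : (⟨τ ^ (m + 1) * x * (τ ^ (m + 1))⁻¹, by rw [e1]; exact b2⟩ : F) =
      ⟨τ ^ m * (τ * x * τ⁻¹) * (τ ^ m)⁻¹, b2⟩ := Subtype.ext e1
  rw [e2, zpow_add_one, mul_assoc, hn_rel τ F x a1 b1, ← mul_assoc, b3, mul_assoc]

theorem Gd.back {F : Subgroup G} {x : G} {m : ℤ} (h1 : Gd τ F (τ⁻¹ * x * τ) 1)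
    (h : Gd τ F (τ⁻¹ * x * τ) m) : Gd τ F x (m - 1) := by
  obtain ⟨a1, a2, a3⟩ := h1
  obtain ⟨b1, b2, b3⟩ := h
  have e0 : τ * (τ⁻¹ * x * τ) * τ⁻¹ = x := by group
  have hx : x ∈ F := by
    rw [zpow_one] at a2
    rwa [e0] at a2
  have e1 : τ ^ (m - 1) * x * (τ ^ (m - 1))⁻¹ = τ ^ m * (τ⁻¹ * x * τ) * (τ ^ m)⁻¹ := by
    rw [zpow_sub_one]
    group
  refine ⟨hx, by rw [e1]; exact b2, ?_⟩
  have e2 : (⟨τ ^ (m - 1) * x * (τ ^ (m - 1))⁻¹, by rw [e1]; exact b2⟩ : F) =
      ⟨τ ^ m * (τ⁻¹ * x * τ) * (τ ^ m)⁻¹, b2⟩ := Subtype.ext e1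
  have e3 : (t : HN τ F)⁻¹ * of (⟨x, hx⟩ : F) = of (⟨τ⁻¹ * x * τ, b1⟩ : F) * t⁻¹ := by
    have h5 := hn_rel τ F (τ⁻¹ * x * τ) b1 (by rw [e0]; exact hx)
    have h6 : (⟨τ * (τ⁻¹ * x * τ) * τ⁻¹, by rw [e0]; exact hx⟩ : F) = ⟨x, hx⟩ := Subtype.ext e0
    rw [h6] at h5
    rw [inv_mul_eq_iff_eq_mul, ← mul_assoc, h5, mul_inv_cancel_right]
  rw [e2, zpow_sub_one, mul_assoc, e3, ← mul_assoc, b3, mul_assoc]

variable (K : Subgroup G)

/-- the finitely generated subgroups of `K` are finite -/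
def LocFin (K : Subgroup G) : Prop :=
  ∀ s : Finset G, (∀ x ∈ s, x ∈ K) → Finite (Subgroup.closure (s : Set G))

/-- a finite subgroup of `K` containing two finite subgroups and a finite set -/
theorem exists_sup (hK : LocFin K) (F F' : Subgroup G) (hF : F ≤ K) (hF' : F' ≤ K) [Finite F]
    [Finite F'] (s : Finset G) (hs : ∀ x ∈ s, x ∈ K) :
    ∃ L : Subgroup G, L ≤ K ∧ Finite L ∧ F ≤ L ∧ F' ≤ L ∧ ∀ x ∈ s, x ∈ L := by
  classical
  have hf : (F : Set G).Finite := Set.toFinite _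
  have hf' : (F' : Set G).Finite := Set.toFinite _
  refine ⟨Subgroup.closure ((hf.toFinset ∪ hf'.toFinset ∪ s : Finset G) : Set G), ?_, ?_, ?_, ?_, ?_⟩
  · rw [Subgroup.closure_le]
    intro x hx
    simp only [Finset.coe_union, Set.Finite.coe_toFinset, Set.mem_union] at hx
    rcases hx with (hx | hx) | hx
    · exact hF hx
    · exact hF' hx
    · exact hs x (by exact_mod_cast hx)
  · refine hK _ (fun x hx => ?_)
    simp only [Finset.mem_union, Set.Finite.mem_toFinset] at hx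
    rcases hx with (hx | hx) | hx
    · exact hF hx
    · exact hF' hx
    · exact hs x hx
  · intro x hx
    exact Subgroup.subset_closure (by simp [hx])
  · intro x hx
    exact Subgroup.subset_closure (by simp [hx])
  · intro x hx
    exact Subgroup.subset_closure (by simp [hx])

variable {K}

/-- every element of `K` can be interchanged with `τ ^ m` in a large HNN extension -/
theorem exists_gd (hK : LocFin K) (hn : ∀ x ∈ K, τ * x * τ⁻¹ ∈ K) (hn' : ∀ x ∈ K, τ⁻¹ * x * τ ∈ K)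
    (m : ℤ) : ∀ x ∈ K, ∀ F : Subgroup G, F ≤ K → Finite F →
      ∃ F' : Subgroup G, F' ≤ K ∧ Finite F' ∧ F ≤ F' ∧ Gd τ F' x m := by
  classical
  have hone : ∀ x ∈ K, ∀ F : Subgroup G, F ≤ K → Finite F →
      ∃ F' : Subgroup G, F' ≤ K ∧ Finite F' ∧ F ≤ F' ∧ Gd τ F' x 1 := by
    intro x hx F hF hfin
    obtain ⟨L, h1, h2, h3, -, h4⟩ := exists_sup K hK F F hF hF {x, τ * x * τ⁻¹} (by
      intro z hz
      simp only [Finset.mem_insert, Finset.mem_singleton] at hz
      rcases hz with rfl | rfl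
      · exact hx
      · exact hn x hx)
    refine ⟨L, h1, h2, h3, h4 x (by simp), ?_, ?_⟩
    · rw [zpow_one]
      exact h4 _ (by simp)
    · have := hn_rel τ L x (h4 x (by simp)) (h4 _ (by simp))
      simpa only [zpow_one] using this
  induction m using Int.induction_on with
  | zero =>
    intro x hx F hF hfin
    obtain ⟨L, h1, h2, h3, -, h4⟩ := exists_sup K hK F F hF hF {x} (by simpa using hx)
    refine ⟨L, h1, h2, h3, h4 x (by simp), ?_, ?_⟩
    · simpa using h4 x (by simp)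
    · simp
  | succ m ih =>
    intro x hx F hF hfin
    obtain ⟨F₁, h1, h2, h3, h4⟩ := hone x hx F hF hfin
    obtain ⟨F₂, g1, g2, g3, g4⟩ := ih (τ * x * τ⁻¹) (hn x hx) F₁ h1 h2
    exact ⟨F₂, g1, g2, h3.trans g3, Gd.step τ (h4.mono τ g3) g4⟩
  | pred m ih =>
    intro x hx F hF hfin
    obtain ⟨F₁, h1, h2, h3, h4⟩ := hone (τ⁻¹ * x * τ) (hn' x hx) F hF hfin
    obtain ⟨F₂, g1, g2, g3, g4⟩ := ih (τ⁻¹ * x * τ) (hn' x hx) F₁ h1 h2
    exact ⟨F₂, g1, g2, h3.trans g3, Gd.back τ (h4.mono τ g3) g4⟩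

/-- every element of the HNN extensions becomes `x τ ^ m` in a large one -/
theorem exists_nf (hK : LocFin K) (hn : ∀ x ∈ K, τ * x * τ⁻¹ ∈ K) (hn' : ∀ x ∈ K, τ⁻¹ * x * τ ∈ K)
    {F : Subgroup G} (hF : F ≤ K) [Finite F] (w : HN τ F) :
    ∃ (F' : Subgroup G) (h : F ≤ F'), F' ≤ K ∧ Finite F' ∧
      ∃ (x : F') (m : ℤ), up τ h w = of x * t ^ m := by
  induction w using HNNExtension.induction_on with
  | of x =>
    exact ⟨F, le_rfl, hF, inferInstance, x, 0, by rw [up_of]; simp⟩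
  | t =>
    exact ⟨F, le_rfl, hF, inferInstance, 1, 1, by rw [up_t]; simp⟩
  | mul u v hu hv =>
    obtain ⟨F₁, h1, k1, f1, x, m, e1⟩ := hu
    obtain ⟨F₂, h2, k2, f2, y, m', e2⟩ := hv
    haveI := f1
    haveI := f2
    obtain ⟨L, l1, l2, l3, l4, -⟩ := exists_sup K hK F₁ F₂ k1 k2 ∅ (by simp)
    obtain ⟨L', p1, p2, p3, p4⟩ := exists_gd τ hK hn hn' m (y : G) (k2 y.2) L l1 l2
    obtain ⟨q1, q2, q3⟩ := p4
    refine ⟨L', h1.trans (l3.trans p3), p1, p2,
      ⟨(x : G) * (τ ^ m * y * (τ ^ m)⁻¹), L'.mul_mem (p3 (l3 x.2)) q2⟩, m + m', ?_⟩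
    have a1 := congrArg (up τ (l3.trans p3)) e1
    have a2 := congrArg (up τ (l4.trans p3)) e2
    rw [up_up_apply, map_mul, map_zpow, up_t, up_of] at a1 a2
    rw [map_mul]
    have a3 : up τ (h1.trans (l3.trans p3)) v = up τ (h2.trans (l4.trans p3)) v := rfl
    rw [a3, a1, a2]
    have a4 : (of (⟨(x : G) * (τ ^ m * y * (τ ^ m)⁻¹), L'.mul_mem (p3 (l3 x.2)) q2⟩ : L') :
        HN τ L') = of (⟨(x : G), p3 (l3 x.2)⟩ : L') * of (⟨τ ^ m * y * (τ ^ m)⁻¹, q2⟩ : L') := by
      rw [← map_mul]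
      rfl
    rw [a4, zpow_add, mul_assoc, ← mul_assoc (t ^ m), q3]
    simp only [mul_assoc]
  | inv u hu =>
    obtain ⟨F₁, h1, k1, f1, x, m, e1⟩ := hu
    obtain ⟨L', p1, p2, p3, p4⟩ := exists_gd τ hK hn hn' (-m) ((x : G)⁻¹)
      (K.inv_mem (k1 x.2)) F₁ k1 f1
    obtain ⟨q1, q2, q3⟩ := p4
    refine ⟨L', h1.trans p3, p1, p2, ⟨_, q2⟩, -m, ?_⟩
    have a1 := congrArg (up τ p3) e1
    rw [up_up_apply, map_mul, map_zpow, up_t, up_of] at a1
    rw [map_inv, a1, mul_inv_rev, ← map_inv, ← zpow_neg]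
    exact q3

/-- **Locally finite-by-cyclic groups.** -/
theorem lf_by_cyclic (hC : Closed C) (hK : LocFin K) (hn : ∀ x ∈ K, τ * x * τ⁻¹ ∈ K)
    (hn' : ∀ x ∈ K, τ⁻¹ * x * τ ∈ K) (hgen : ∀ g : G, ∃ x ∈ K, ∃ m : ℤ, g = x * τ ^ m)
    (hτ : ∀ m : ℤ, τ ^ m ∈ K → m = 0) : C G := by
  classical
  let I : Type := {F : Subgroup G // F ≤ K ∧ Finite F}
  haveI : Nonempty I := ⟨⟨⊥, bot_le, inferInstance⟩⟩
  refine hC.colim I ?_ (fun i => HN τ i.1) (fun i j hij => up τ hij) G (fun i => down τ i.1)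
    ?_ ?_ ?_ ?_ ?_ ?_
  · rintro ⟨F, hF, hf⟩ ⟨F', hF', hf'⟩
    obtain ⟨L, l1, l2, l3, l4, -⟩ := exists_sup K hK F F' hF hF' ∅ (by simp)
    exact ⟨⟨L, l1, l2⟩, l3, l4⟩
  · intro i h x
    rw [up_refl]
    rfl
  · intro i j k h h' x
    exact up_up_apply τ h h' x
  · intro i j h x
    exact DFunLike.congr_fun (down_up τ h) x
  · intro g
    obtain ⟨x, hx, m, rfl⟩ := hgen g
    obtain ⟨L, l1, l2, -, -, l4⟩ := exists_sup K hK ⊥ ⊥ bot_le bot_le {x} (by simpa using hx)
    refine ⟨⟨L, l1, l2⟩, of (⟨x, l4 x (by simp)⟩ : L) * t ^ m, ?_⟩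
    rw [map_mul, map_zpow, down_of, down_t]
  · rintro ⟨F, hF, hf⟩ w hw
    haveI := hf
    obtain ⟨F', h, k, f, x, m, e⟩ := exists_nf τ hK hn hn' hF w
    refine ⟨⟨F', k, f⟩, h, ?_⟩
    have h1 : down τ F' (up τ h w) = 1 := by
      have := DFunLike.congr_fun (down_up τ h) w
      exact this.trans hw
    rw [e, map_mul, map_zpow, down_of, down_t] at h1
    have h2 : m = 0 := by
      refine hτ m ?_
      have h3 : τ ^ m = (x : G)⁻¹ := eq_inv_of_mul_eq_one_right h1
      rw [h3]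
      exact K.inv_mem (k x.2)
    subst h2
    have h3 : x = 1 := by
      apply Subtype.ext
      simpa using h1
    rw [e, h3]
    simp
  · rintro ⟨F, hF, hf⟩
    exact hnn_finite (cj τ F) hC

end cyclic

/-- **Extensions with locally finite kernel.** -/
theorem lf_kernel (hC : Closed C) (hE : ExtClosed C) {G Q : Type} [Group G] [Group Q] (f : G →* Q)
    (hf : Function.Surjective f) (hQ : C Q) (hK : LocFin f.ker) : C G := by
  refine hE G Q f hf hQ ?_ ?_
  · refine Pool.Agent.Y430.SS.t_lf C hC _ (fun s => ?_)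
    classical
    have h1 := hK (s.image Subtype.val) (fun x hx => by
      obtain ⟨y, -, rfl⟩ := Finset.mem_image.1 hx
      exact y.2)
    have h2 : Subgroup.closure ((s.image Subtype.val : Finset G) : Set G) =
        (Subgroup.closure (s : Set f.ker)).map f.ker.subtype := by
      rw [MonoidHom.map_closure, Finset.coe_image]
      rfl
    rw [h2] at h1
    exact Finite.of_injective (fun y : Subgroup.closure (s : Set f.ker) =>
      (⟨y.1.1, Subgroup.mem_map_of_mem f.ker.subtype y.2⟩ :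
        (Subgroup.closure (s : Set f.ker)).map f.ker.subtype)) (fun a b hab => by
          apply Subtype.ext
          apply Subtype.ext
          exact congrArg (Subtype.val :
            (Subgroup.closure (s : Set f.ker)).map f.ker.subtype → G) hab)
  · intro q hq
    obtain ⟨g₀, hg₀⟩ := hf q
    let P : Subgroup G := (Subgroup.zpowers q).comap f
    let τ : P := ⟨g₀, by
      change f g₀ ∈ Subgroup.zpowers q
      rw [hg₀]
      exact Subgroup.mem_zpowers q⟩
    refine lf_by_cyclic (G := P) τ (K := (f.comp P.subtype).ker) hC ?_ ?_ ?_ ?_ ?_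
    · intro s hs
      classical
      have h1 := hK (s.image Subtype.val) (fun x hx => by
        obtain ⟨y, hy, rfl⟩ := Finset.mem_image.1 hx
        exact hs y hy)
      have h2 : Subgroup.closure ((s.image Subtype.val : Finset G) : Set G) =
          (Subgroup.closure (s : Set P)).map P.subtype := by
        rw [MonoidHom.map_closure, Finset.coe_image]
        rfl
      rw [h2] at h1
      exact Finite.of_injective (fun y : Subgroup.closure (s : Set P) =>
        (⟨y.1.1, Subgroup.mem_map_of_mem P.subtype y.2⟩ :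
          (Subgroup.closure (s : Set P)).map P.subtype)) (fun a b hab => by
            apply Subtype.ext
            apply Subtype.ext
            exact congrArg (Subtype.val :
              (Subgroup.closure (s : Set P)).map P.subtype → G) hab)
    · intro x hx
      exact (MonoidHom.normal_ker (f.comp P.subtype)).conj_mem x hx τ
    · intro x hx
      have := (MonoidHom.normal_ker (f.comp P.subtype)).conj_mem x hx τ⁻¹
      rwa [inv_inv] at this
    · intro g
      obtain ⟨m, hm⟩ := g.2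
      refine ⟨g * (τ ^ m)⁻¹, ?_, m, by group⟩
      rw [MonoidHom.mem_ker, map_mul, map_inv, map_zpow]
      change f g.1 * (f g₀ ^ m)⁻¹ = 1
      rw [hg₀]
      have hm' : q ^ m = f g.1 := hm
      rw [hm', mul_inv_cancel]
    · intro m hm
      rw [MonoidHom.mem_ker, map_zpow] at hm
      change f g₀ ^ m = 1 at hm
      rw [hg₀] at hm
      by_contra h0
      exact hq (isOfFinOrder_iff_zpow_eq_one.2 ⟨m, h0, hm⟩)

end Pool.Agent.Q152.WP
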