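import Pool.Agent.Q152.WP.Perm

/-!
# Restricted direct products of centreless indecomposable groups: automorphisms permute the factors
-/

set_option autoImplicit false
set_option linter.unusedSectionVars false
set_option linter.style.haveILetI false

namespace Pool.Agent.Q152.WP

open Pool.Agent.Y462.SS

/-- `D` is nontrivial, has trivial centre and is not a product of two commuting nontrivial
subgroups -/
structure Prime (D : Type) [Group D] : Prop where
  nontriv : ∃ d : D, d ≠ 1
  center : ∀ d : D, (∀ x : D, d * x = x * d) → d = 1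
  indec : ∀ U V : Subgroup D, (∀ u ∈ U, ∀ v ∈ V, u * v = v * u) → U ⊔ V = ⊤ → U = ⊥ ∨ V = ⊥

/-- `N` is the restricted direct product of the groups `D i` -/
structure Dec (N : Type) [Group N] (ι : Type) (D : ι → Type) [∀ i, Group (D i)] where
  sg : ∀ i, D i →* N
  ev : ∀ i, N →* D i
  ev_sg : ∀ i u, ev i (sg i u) = u
  ev_ne : ∀ i j u, j ≠ i → ev j (sg i u) = 1
  ext : ∀ a b, (∀ i, ev i a = ev i b) → a = b
  fin : ∀ a, {i | ev i a ≠ 1}.Finite

namespace Dec

variable {N : Type} [Group N] {ι : Type} {D : ι → Type} [∀ i, Group (D i)] (d : Dec N ι D)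

/-- the part of `α` from the factor `i` to the factor `i` through the factor `j` -/
def thet (α : MulAut N) (i j : ι) : D i →* D i :=
  (d.ev i).comp ((MulEquiv.toMonoidHom α.symm).comp ((d.sg j).comp
    ((d.ev j).comp ((MulEquiv.toMonoidHom α).comp (d.sg i)))))

theorem thet_apply (α : MulAut N) (i j : ι) (u : D i) :
    d.thet α i j u = d.ev i (α.symm (d.sg j (d.ev j (α (d.sg i u))))) := rfl

theorem comm_sg (i l : ι) (hl : l ≠ i) (u : D i) (y : D l) :
    d.sg i u * d.sg l y = d.sg l y * d.sg i u := by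
  refine d.ext _ _ (fun m => ?_)
  rw [map_mul, map_mul]
  by_cases hm : m = i
  · subst hm
    rw [d.ev_ne l m y (Ne.symm hl), mul_one, one_mul]
  · rw [d.ev_ne i m u hm, mul_one, one_mul]

theorem comm_ev (j : ι) (a b : N) (h : d.ev j a * d.ev j b = d.ev j b * d.ev j a) :
    d.sg j (d.ev j a) * b = b * d.sg j (d.ev j a) := by
  refine d.ext _ _ (fun m => ?_)
  rw [map_mul, map_mul]
  by_cases hm : m = j
  · subst hm
    rw [d.ev_sg, h]
  · rw [d.ev_ne j m _ hm, mul_one, one_mul]

/-- the component in the factor `j` of an element of the image of a factor is in this image -/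
theorem thet_spec (hD : ∀ i, Prime (D i)) (α : MulAut N) (i j : ι) (u : D i) :
    α.symm (d.sg j (d.ev j (α (d.sg i u)))) = d.sg i (d.thet α i j u) := by
  refine d.ext _ _ (fun l => ?_)
  by_cases hl : l = i
  · subst hl
    rw [d.ev_sg]
    rfl
  · rw [d.ev_ne i l _ hl]
    refine (hD l).center _ (fun y => ?_)
    have h2 := congrArg α (d.comm_sg i l hl u y)
    rw [map_mul, map_mul] at h2
    have h3 := d.comm_ev j (α (d.sg i u)) (α (d.sg l y)) (by
      have h4 := congrArg (d.ev j) h2
      rwa [map_mul, map_mul] at h4)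
    have h5 := congrArg α.symm h3
    rw [map_mul, map_mul, MulEquiv.symm_apply_apply] at h5
    have h6 := congrArg (d.ev l) h5
    rwa [map_mul, map_mul, d.ev_sg] at h6

/-- an automorphism maps every factor into a factor -/
theorem exists_factor (hD : ∀ i, Prime (D i)) (α : MulAut N) (i : ι) :
    ∃ j, ∀ u : D i, ∃ v : D j, α (d.sg i u) = d.sg j v := by
  have hidem : ∀ j (u : D i), d.thet α i j (d.thet α i j u) = d.thet α i j u := by
    intro j u
    rw [thet_apply d α i j (d.thet α i j u), ← d.thet_spec hD α i j u, MulEquiv.apply_symm_apply,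
      d.ev_sg]
    rfl
  have hcomm : ∀ j, ∀ u ∈ (d.thet α i j).range, ∀ v ∈ (d.thet α i j).ker, u * v = v * u := by
    rintro j _ ⟨u, rfl⟩ v hv
    have h1 : d.ev j (α (d.sg i v)) = 1 := by
      have h2 := d.thet_spec hD α i j v
      rw [MonoidHom.mem_ker.1 hv, map_one] at h2
      have h3 := congrArg α h2
      rw [MulEquiv.apply_symm_apply, map_one] at h3
      have h4 := congrArg (d.ev j) h3
      rwa [d.ev_sg, map_one] at h4
    have h5 : α (d.sg i (d.thet α i j u)) * α (d.sg i v) =
        α (d.sg i v) * α (d.sg i (d.thet α i j u)) := by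
      rw [← d.thet_spec hD α i j u, MulEquiv.apply_symm_apply]
      refine d.comm_ev j _ _ ?_
      rw [h1, mul_one, one_mul]
    have h7 : α (d.sg i (d.thet α i j u) * d.sg i v) = α (d.sg i v * d.sg i (d.thet α i j u)) := by
      rw [map_mul, map_mul, h5]
    have h6 := congrArg (d.ev i) (α.injective h7)
    rwa [map_mul, map_mul, d.ev_sg, d.ev_sg] at h6
  have hsup : ∀ j, (d.thet α i j).range ⊔ (d.thet α i j).ker = ⊤ := by
    intro j
    rw [eq_top_iff]
    intro u _
    have h1 : u = d.thet α i j u * ((d.thet α i j u)⁻¹ * u) := by group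
    rw [h1]
    refine Subgroup.mul_mem_sup ⟨u, rfl⟩ ?_
    rw [MonoidHom.mem_ker, map_mul, map_inv, hidem, inv_mul_cancel]
  obtain ⟨u₀, hu₀⟩ := (hD i).nontriv
  obtain ⟨j, hj⟩ : ∃ j, (d.thet α i j).ker = ⊥ := by
    by_contra hc
    push Not at hc
    have h1 : ∀ j, (d.thet α i j).range = ⊥ := fun j =>
      ((hD i).indec _ _ (hcomm j) (hsup j)).resolve_right (hc j)
    apply hu₀
    have h2 : α (d.sg i u₀) = 1 := by
      refine d.ext _ _ (fun j => ?_)
      have h3 := d.thet_spec hD α i j u₀
      have h4 : d.thet α i j u₀ = 1 := by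
        have : d.thet α i j u₀ ∈ (d.thet α i j).range := ⟨u₀, rfl⟩
        rw [h1 j] at this
        exact this
      rw [h4, map_one] at h3
      have h5 := congrArg α h3
      rw [MulEquiv.apply_symm_apply, map_one] at h5
      have h6 := congrArg (d.ev j) h5
      rw [d.ev_sg] at h6
      rw [h6]
    have h3 : d.sg i u₀ = 1 := by
      apply α.injective
      rw [h2, map_one]
    have h4 := congrArg (d.ev i) h3
    rwa [d.ev_sg, map_one] at h4
  refine ⟨j, fun u => ⟨d.ev j (α (d.sg i u)), ?_⟩⟩
  have hid : d.thet α i j u = u := by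
    have h1 : (d.thet α i j u)⁻¹ * u ∈ (d.thet α i j).ker := by
      rw [MonoidHom.mem_ker, map_mul, map_inv, hidem, inv_mul_cancel]
    rw [hj] at h1
    exact inv_mul_eq_one.1 h1
  have h2 := d.thet_spec hD α i j u
  rw [hid] at h2
  have h3 := congrArg α h2
  rw [MulEquiv.apply_symm_apply] at h3
  exact h3.symm

/-- the index of the image of a factor -/
noncomputable def idx (hD : ∀ i, Prime (D i)) (α : MulAut N) (i : ι) : ι :=
  (d.exists_factor hD α i).choose

theorem idx_spec (hD : ∀ i, Prime (D i)) (α : MulAut N) (i : ι) (u : D i) :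
    ∃ v : D (d.idx hD α i), α (d.sg i u) = d.sg (d.idx hD α i) v :=
  (d.exists_factor hD α i).choose_spec u

theorem idx_unique (hD : ∀ i, Prime (D i)) (α : MulAut N) (i j : ι)
    (h : ∀ u : D i, ∃ v : D j, α (d.sg i u) = d.sg j v) : d.idx hD α i = j := by
  obtain ⟨u, hu⟩ := (hD i).nontriv
  obtain ⟨v, hv⟩ := h u
  obtain ⟨w, hw⟩ := d.idx_spec hD α i u
  by_contra hne
  have h1 : d.sg i u ≠ 1 := by
    intro h2
    have h3 := congrArg (d.ev i) h2
    rw [d.ev_sg, map_one] at h3
    exact hu h3
  apply h1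
  apply α.injective
  rw [map_one]
  refine d.ext _ _ (fun l => ?_)
  rw [map_one]
  by_cases hl : l = j
  · rw [hw]
    exact d.ev_ne _ _ _ (fun h => hne (h ▸ hl))
  · rw [hv]
    exact d.ev_ne _ _ _ hl

theorem idx_mul (hD : ∀ i, Prime (D i)) (α β : MulAut N) (i : ι) :
    d.idx hD (α * β) i = d.idx hD α (d.idx hD β i) := by
  refine d.idx_unique hD _ _ _ (fun u => ?_)
  obtain ⟨v, hv⟩ := d.idx_spec hD β i u
  obtain ⟨w, hw⟩ := d.idx_spec hD α (d.idx hD β i) v
  exact ⟨w, by rw [MulAut.mul_apply, hv, hw]⟩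

theorem idx_one (hD : ∀ i, Prime (D i)) (i : ι) : d.idx hD 1 i = i :=
  d.idx_unique hD _ _ _ (fun u => ⟨u, rfl⟩)

/-- the permutation of the factors -/
noncomputable def perm (hD : ∀ i, Prime (D i)) : MulAut N →* Equiv.Perm ι where
  toFun α :=
    { toFun := d.idx hD α
      invFun := d.idx hD α⁻¹
      left_inv := fun i => by rw [← d.idx_mul, inv_mul_cancel, d.idx_one]
      right_inv := fun i => by rw [← d.idx_mul, mul_inv_cancel, d.idx_one] }
  map_one' := by
    ext i
    exact d.idx_one hD i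
  map_mul' α β := by
    ext i
    exact d.idx_mul hD α β i

theorem perm_spec (hD : ∀ i, Prime (D i)) (α : MulAut N) (i : ι) (u : D i) :
    ∃ v : D (d.perm hD α i), α (d.sg i u) = d.sg (d.perm hD α i) v := d.idx_spec hD α i u

theorem perm_unique (hD : ∀ i, Prime (D i)) (α : MulAut N) (i j : ι)
    (h : ∀ u : D i, ∃ v : D j, α (d.sg i u) = d.sg j v) : d.perm hD α i = j :=
  d.idx_unique hD α i j h

/-- trivial components are mapped to trivial components -/
theorem ev_perm (hD : ∀ i, Prime (D i)) (α : MulAut N) (i : ι) (y : N) (hy : d.ev i y = 1) :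
    d.ev (d.perm hD α i) (α y) = 1 := by
  refine (hD _).center _ (fun x => ?_)
  obtain ⟨u, hu⟩ := d.perm_spec hD α⁻¹ (d.perm hD α i) x
  have hi : d.perm hD α⁻¹ (d.perm hD α i) = i := by
    rw [← Equiv.Perm.mul_apply, ← map_mul, inv_mul_cancel, map_one]
    rfl
  have h1 : y * α⁻¹ (d.sg (d.perm hD α i) x) = α⁻¹ (d.sg (d.perm hD α i) x) * y := by
    rw [hu]
    refine d.ext _ _ (fun m => ?_)
    rw [map_mul, map_mul]
    by_cases hm : m = i
    · subst hm
      rw [hy, mul_one, one_mul]
    · rw [d.ev_ne _ m _ (fun h => hm (h.trans hi)), mul_one, one_mul]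
  have h2 := congrArg α h1
  rw [map_mul, map_mul, MulAut.apply_inv_self] at h2
  have h3 := congrArg (d.ev (d.perm hD α i)) h2
  rwa [map_mul, map_mul, d.ev_sg] at h3

/-- inner automorphisms preserve all factors -/
theorem perm_conj (hD : ∀ i, Prime (D i)) (z : N) : d.perm hD (MulAut.conj z) = 1 := by
  ext i
  have key : d.perm hD (MulAut.conj z) i = i := by
    refine d.perm_unique hD _ _ _ (fun u => ⟨d.ev i z * u * (d.ev i z)⁻¹, ?_⟩)
    refine d.ext _ _ (fun m => ?_)
    rw [MulAut.conj_apply, map_mul, map_mul, map_inv]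
    by_cases hm : m = i
    · subst hm
      rw [d.ev_sg, d.ev_sg]
    · rw [d.ev_ne i m _ hm, d.ev_ne i m _ hm, mul_one, mul_inv_cancel]
  exact key

end Dec

end Pool.Agent.Q152.WP
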