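import Pool.Agent.Q152.WP.KS2

/-!
# Extensions whose kernel is a restricted direct product with permuted factors
-/

set_option autoImplicit false
set_option linter.unusedSectionVars false
set_option linter.style.haveILetI false

namespace Pool.Agent.Q152.WP

open Pool.Agent.Y462.SS

variable {C : ∀ (G : Type) [Group G], Prop}

/-- the conjugation by `p` on the kernel -/
def cja {L D : Type} [Group L] [Group D] {φ : L →* Multiplicative ℤ} (e : φ.ker ≃* D) (p : L) :
    D → D :=
  fun u => e ⟨p * (e.symm u : L) * p⁻¹, (MonoidHom.normal_ker φ).conj_mem _ (e.symm u).2 p⟩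

/-- All groups with a homomorphism to the integers whose kernel is identified with `D`, and which act
on it by maps in `A`, are in the class. -/
def ByCyc (C : ∀ (G : Type) [Group G], Prop) (D : Type) [Group D] (A : Set (D → D)) : Prop :=
  ∀ (L : Type) [Group L] (φ : L →* Multiplicative ℤ) (e : φ.ker ≃* D),
    (∀ p : L, cja e p ∈ A) → C L

namespace Dec

/-- the map of `D i` induced by the conjugation by `g` -/
def stab {G Q : Type} [Group G] [Group Q] {f : G →* Q} {ι : Type} {D : ι → Type}
    [∀ i, Group (D i)] (d : Dec f.ker ι D) (g : G) (i : ι) : D i → D i :=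
  fun u => d.ev i ⟨g * (d.sg i u : G) * g⁻¹,
    (MonoidHom.normal_ker f).conj_mem _ (d.sg i u).2 g⟩

section
variable {G : Type} [Group G] {E : G →* Multiplicative ℤ} {ι : Type} {D : ι → Type}
  [∀ i, Group (D i)] (d : Dec E.ker ι D) (π : G →* Equiv.Perm ι)
  (hπk : ∀ y ∈ E.ker, π y = 1)
  (hπ : ∀ (g y : G) (hy : y ∈ E.ker) (i : ι) (hy' : g * y * g⁻¹ ∈ E.ker),
    d.ev i ⟨y, hy⟩ = 1 → d.ev (π g i) ⟨g * y * g⁻¹, hy'⟩ = 1)

include hπ in
theorem ev_conj' (g y : G) (hy : y ∈ E.ker) (i j : ι) (hij : π g i = j)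
    (h : d.ev i ⟨y, hy⟩ = 1) (hy' : g * y * g⁻¹ ∈ E.ker) :
    d.ev j ⟨g * y * g⁻¹, hy'⟩ = 1 := by
  subst hij
  exact hπ g y hy i hy' h

include hπ in
theorem M_conj' (Z : Set ι) (g n : G) (hZ : ∀ i ∈ Z, π g⁻¹ i ∈ Z) (hn : n ∈ d.M Z) :
    g * n * g⁻¹ ∈ d.M Z := by
  obtain ⟨h, h'⟩ := hn
  refine ⟨(MonoidHom.normal_ker E).conj_mem n h g, fun i hi => ?_⟩
  refine d.ev_conj' π hπ g n h (π g⁻¹ i) i ?_ (h' _ (hZ i hi)) _
  rw [← Equiv.Perm.mul_apply, ← map_mul, mul_inv_cancel, map_one]
  rfl

/-- quotients by the complements of a factor -/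
theorem quot_cyc' (T : Subgroup G) (hT : E.ker ≤ T) (i : ι)
    (hn : ((d.M {i}).subgroupOf T).Normal) (A : Set (D i → D i)) (hcy : ByCyc C (D i) A)
    (hA : ∀ g ∈ T, d.stab g i ∈ A) :
    C (T ⧸ (d.M {i}).subgroupOf T) := by
  let φ : T ⧸ (d.M {i}).subgroupOf T →* Multiplicative ℤ :=
    QuotientGroup.lift _ (E.comp T.subtype) (fun g hg => by
      obtain ⟨h, _⟩ := hg
      exact h)
  let δ : D i →* φ.ker :=
    { toFun := fun u => ⟨QuotientGroup.mk ⟨(d.sg i u : G), hT (d.sg i u).2⟩, (d.sg i u).2⟩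
      map_one' := by
        apply Subtype.ext
        change ((⟨(d.sg i 1 : G), _⟩ : T) : T ⧸ (d.M {i}).subgroupOf T) = 1
        rw [QuotientGroup.eq_one_iff]
        refine ⟨(d.sg i 1).2, fun j hj => ?_⟩
        rw [Set.mem_singleton_iff] at hj
        subst hj
        exact d.ev_sg j 1
      map_mul' := fun u v => by
        apply Subtype.ext
        change ((⟨(d.sg i (u * v) : G), _⟩ : T) : T ⧸ (d.M {i}).subgroupOf T) =
          ((⟨(d.sg i u : G), _⟩ * ⟨(d.sg i v : G), _⟩ : T) : T ⧸ (d.M {i}).subgroupOf T)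
        congr 1
        apply Subtype.ext
        simp }
  have hδ : ∀ (g : T) (hg : (g : G) ∈ E.ker),
      ((δ (d.ev i ⟨g, hg⟩) : φ.ker) : T ⧸ (d.M {i}).subgroupOf T) = g := by
    intro g hg
    change ((⟨(d.sg i (d.ev i ⟨g, hg⟩) : G), _⟩ : T) : T ⧸ (d.M {i}).subgroupOf T) = g
    rw [QuotientGroup.eq]
    refine ⟨mul_mem (inv_mem (d.sg i _).2) hg, fun j hj => ?_⟩
    rw [Set.mem_singleton_iff] at hj
    subst hj
    change d.ev j ((d.sg j (d.ev j ⟨g, hg⟩))⁻¹ * ⟨g, hg⟩) = 1
    rw [map_mul, map_inv, d.ev_sg, inv_mul_cancel]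
  have hδb : Function.Bijective δ := by
    constructor
    · rw [injective_iff_map_eq_one]
      intro u hu
      have h1 : ((⟨(d.sg i u : G), hT (d.sg i u).2⟩ : T) : T ⧸ (d.M {i}).subgroupOf T) = 1 :=
        congrArg Subtype.val hu
      rw [QuotientGroup.eq_one_iff] at h1
      obtain ⟨h2, h3⟩ := h1
      have h4 := h3 i rfl
      have h5 : d.ev i (d.sg i u) = 1 := h4
      rwa [d.ev_sg] at h5
    · rintro ⟨z, hz⟩
      induction z using QuotientGroup.induction_on with
      | H g =>
        have hg : (g : G) ∈ E.ker := hz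
        exact ⟨d.ev i ⟨g, hg⟩, Subtype.ext (hδ g hg)⟩
  refine hcy _ φ (MulEquiv.ofBijective δ hδb).symm ?_
  intro p
  induction p using QuotientGroup.induction_on with
  | H g =>
    have h1 : cja (MulEquiv.ofBijective δ hδb).symm (g : T ⧸ (d.M {i}).subgroupOf T) =
        d.stab g i := by
      funext u
      change (MulEquiv.ofBijective δ hδb).symm _ = _
      rw [MulEquiv.symm_apply_eq]
      apply Subtype.ext
      have h2 := hδ (g * ⟨(d.sg i u : G), hT (d.sg i u).2⟩ * g⁻¹)
        ((MonoidHom.normal_ker E).conj_mem _ (d.sg i u).2 g)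
      exact h2.symm
    rw [h1]
    exact hA g g.2

/-- the action on an invariant set -/
def rest' (O : Set ι) (hO : ∀ g : G, ∀ i ∈ O, π g i ∈ O) : G →* Equiv.Perm O where
  toFun g :=
    { toFun := fun i => ⟨π g i, hO g i i.2⟩
      invFun := fun i => ⟨π g⁻¹ i, hO g⁻¹ i i.2⟩
      left_inv := fun i => Subtype.ext (by
        change π g⁻¹ (π g i) = i
        rw [← Equiv.Perm.mul_apply, ← map_mul, inv_mul_cancel, map_one]
        rfl)
      right_inv := fun i => Subtype.ext (by
        change π g (π g⁻¹ i) = i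
        rw [← Equiv.Perm.mul_apply, ← map_mul, mul_inv_cancel, map_one]
        rfl) }
  map_one' := by
    ext i
    change π 1 i = i
    rw [map_one]
    rfl
  map_mul' a b := by
    ext i
    change π (a * b) i = π a (π b i)
    rw [map_mul]
    rfl

include hπk hπ in
/-- finite orbits -/
theorem fin_orb' (hC : Closed C) (A : ∀ i, Set (D i → D i)) (hcy : ∀ i, ByCyc C (D i) (A i))
    (hA : ∀ (g : G) (i : ι), π g i = i → d.stab g i ∈ A i) (O : Set ι) [Finite O]
    (hne : O.Nonempty) (hO : ∀ g : G, ∀ i ∈ O, π g i ∈ O) [(d.M O).Normal] :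
    C (G ⧸ d.M O) := by
  classical
  haveI := Fintype.ofFinite O
  let T : Subgroup G := (rest' π O hO).ker
  have hT : E.ker ≤ T := by
    intro g hg
    rw [MonoidHom.mem_ker]
    ext i
    change π g i = i
    rw [hπk g hg]
    rfl
  have hTi : T.FiniteIndex := inferInstance
  have hfix : ∀ g ∈ T, ∀ i ∈ O, π g i = i := by
    intro g hg i hi
    have h1 := MonoidHom.mem_ker.1 hg
    have h2 := congrArg (fun p : Equiv.Perm O => (p ⟨i, hi⟩ : ι)) h1
    exact h2
  have hn : ∀ i : O, ((d.M {(i : ι)}).subgroupOf T).Normal := by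
    intro i
    refine ⟨fun n hn g => ?_⟩
    refine d.M_conj' π hπ _ g n (fun j hj => ?_) hn
    rw [Set.mem_singleton_iff] at hj
    subst hj
    exact hfix _ (inv_mem g.2) _ i.2
  refine quot_fin hC (d.M O) T hTi (fun i : O => (d.M {(i : ι)}).subgroupOf T) hn
    (fun i => d.quot_cyc' T hT i (hn i) (A i) (hcy i) (fun g hg => hA g i (hfix g hg i i.2)))
    Finset.univ ?_ ?_
  · obtain ⟨x, hx⟩ := hne
    exact ⟨⟨x, hx⟩, Finset.mem_univ _⟩
  · intro g
    constructor
    · intro h
      obtain ⟨x, hx⟩ := hne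
      obtain ⟨h1, -⟩ := h ⟨x, hx⟩ (Finset.mem_univ _)
      refine ⟨h1, fun i hi => ?_⟩
      obtain ⟨_, h2⟩ := h ⟨i, hi⟩ (Finset.mem_univ _)
      exact h2 i rfl
    · rintro ⟨h1, h2⟩ i _
      refine ⟨h1, fun j hj => ?_⟩
      rw [Set.mem_singleton_iff] at hj
      subst hj
      exact h2 _ i.2

include hπ in
/-- infinite orbits -/
theorem inf_orb' (hC : Closed C) {t : G} (ht : E t = Multiplicative.ofAdd 1) (x : ι)
    (hcy : C (D x)) (hx : Function.Injective fun n : ℤ => π (t ^ n) x) :
    ∃ K : Subgroup G, ∃ _ : K.Normal, C (G ⧸ K) ∧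
      ∀ g ∈ K, ∀ h : g ∈ E.ker, ∀ n : ℤ, d.ev (π (t ^ n) x) ⟨g, h⟩ = 1 := by
  have hE : ∀ n : ℤ, E (t ^ n) = Multiplicative.ofAdd n := by
    intro n
    rw [map_zpow, ht, ← ofAdd_zsmul, smul_eq_mul, mul_one]
  let e : G → ℤ := fun g => Multiplicative.toAdd (E g)
  have hc : ∀ (g : G) (k : ℤ), t ^ (-(k + e g)) * g * t ^ k ∈ E.ker := by
    intro g k
    rw [MonoidHom.mem_ker, map_mul, map_mul, hE, hE]
    have h1 : E g = Multiplicative.ofAdd (e g) := rfl
    rw [h1, ← ofAdd_add, ← ofAdd_add]
    have h2 : -(k + e g) + e g + k = 0 := by ring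
    rw [h2, ofAdd_zero]
  let Ψ : G →* PW (D x) (Multiplicative ℤ) (Multiplicative ℤ) :=
    { toFun := fun g => ⟨fun k => d.ev x ⟨_, hc g (Multiplicative.toAdd k)⟩, by
        have hy : t ^ (-(e g)) * g ∈ E.ker := by
          have := hc g 0
          simpa using this
        refine ((d.fin ⟨_, hy⟩).preimage
          (f := fun n : Multiplicative ℤ => π (t ^ (Multiplicative.toAdd n)) x) ?_).subset
          (fun k hk => ?_)
        · intro a _ b _ hab
          exact Multiplicative.toAdd.injective (hx hab)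
        · intro h0
          apply hk
          have h1 : (⟨_, hc g (Multiplicative.toAdd k)⟩ : E.ker) =
              ⟨(t ^ (-(Multiplicative.toAdd k))) * (t ^ (-(e g)) * g) *
                (t ^ (-(Multiplicative.toAdd k)))⁻¹, (MonoidHom.normal_ker E).conj_mem _ hy _⟩ := by
            apply Subtype.ext
            change t ^ (-(Multiplicative.toAdd k + e g)) * g * t ^ Multiplicative.toAdd k =
              (t ^ (-(Multiplicative.toAdd k))) * (t ^ (-(e g)) * g) *
                (t ^ (-(Multiplicative.toAdd k)))⁻¹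
            rw [← zpow_neg, neg_neg, neg_add, zpow_add]
            group
          rw [h1]
          refine d.ev_conj' π hπ _ _ hy (π (t ^ (Multiplicative.toAdd k)) x) x ?_ h0 _
          rw [← Equiv.Perm.mul_apply, ← map_mul, ← zpow_add, neg_add_cancel, zpow_zero, map_one]
          rfl, E g⟩
      map_one' := by
        refine PW.ext' (fun k => ?_) (map_one E)
        have h1 : (⟨_, hc 1 (Multiplicative.toAdd k)⟩ : E.ker) = 1 := by
          apply Subtype.ext
          change t ^ (-(Multiplicative.toAdd k + e 1)) * 1 * t ^ Multiplicative.toAdd k = 1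
          have h2 : e 1 = 0 := by
            change Multiplicative.toAdd (E 1) = 0
            rw [map_one]
            rfl
          rw [h2, add_zero, mul_one, ← zpow_add, neg_add_cancel, zpow_zero]
        change d.ev x ⟨_, hc 1 (Multiplicative.toAdd k)⟩ = 1
        rw [h1, map_one]
      map_mul' := fun a b => by
        refine PW.ext' (fun k => ?_) (map_mul E a b)
        have h0 : e (a * b) = e a + e b := by
          change Multiplicative.toAdd (E (a * b)) = _
          rw [map_mul]
          rfl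
        have h1 : (⟨_, hc (a * b) (Multiplicative.toAdd k)⟩ : E.ker) =
            ⟨_, hc a (e b + Multiplicative.toAdd k)⟩ * ⟨_, hc b (Multiplicative.toAdd k)⟩ := by
          apply Subtype.ext
          change t ^ (-(Multiplicative.toAdd k + e (a * b))) * (a * b) * t ^ Multiplicative.toAdd k =
            (t ^ (-(e b + Multiplicative.toAdd k + e a)) * a * t ^ (e b + Multiplicative.toAdd k)) *
            (t ^ (-(Multiplicative.toAdd k + e b)) * b * t ^ (Multiplicative.toAdd k))
          have h3 : t ^ (e b + Multiplicative.toAdd k) * t ^ (-(Multiplicative.toAdd k + e b)) = 1 := by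
            rw [← zpow_add, add_comm (e b), add_neg_cancel, zpow_zero]
          have h4 : -(e b + Multiplicative.toAdd k + e a) =
              -(Multiplicative.toAdd k + e (a * b)) := by
            rw [h0]
            ring
          rw [h4]
          calc t ^ (-(Multiplicative.toAdd k + e (a * b))) * (a * b) * t ^ Multiplicative.toAdd k
              = t ^ (-(Multiplicative.toAdd k + e (a * b))) * a * 1 * b *
                  t ^ Multiplicative.toAdd k := by group
            _ = _ := by
              rw [← h3]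
              group
        change d.ev x ⟨_, hc (a * b) (Multiplicative.toAdd k)⟩ =
          d.ev x ⟨_, hc a (e b + Multiplicative.toAdd k)⟩ * d.ev x ⟨_, hc b (Multiplicative.toAdd k)⟩
        rw [h1, map_mul] }
  refine ⟨Ψ.ker, inferInstance, quot_ker hC Ψ (wreath_resFin hC hcy hC.int resFin_int), ?_⟩
  intro g hg h n
  have h1 : d.ev x ⟨_, hc g n⟩ = 1 :=
    congrArg (fun p => PW.s p (Multiplicative.ofAdd n)) (MonoidHom.mem_ker.1 hg)
  have h2 : e g = 0 := by
    change Multiplicative.toAdd (E g) = 0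
    rw [MonoidHom.mem_ker.1 h]
    rfl
  have h3 : (⟨g, h⟩ : E.ker) = ⟨t ^ n * (t ^ (-(n + e g)) * g * t ^ n) * (t ^ n)⁻¹,
      (MonoidHom.normal_ker E).conj_mem _ (hc g n) _⟩ := by
    apply Subtype.ext
    change g = t ^ n * (t ^ (-(n + e g)) * g * t ^ n) * (t ^ n)⁻¹
    rw [h2]
    group
  rw [h3]
  exact d.ev_conj' π hπ _ _ (hc g n) x _ rfl h1 _

include hπk hπ in
/-- groups over the integers -/
theorem over_int' (hC : Closed C) (hCD : ∀ i, C (D i)) (A : ∀ i, Set (D i → D i))
    (hcy : ∀ i, ByCyc C (D i) (A i))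
    (hA : ∀ (g : G) (i : ι), π g i = i → d.stab g i ∈ A i) {t : G}
    (ht : E t = Multiplicative.ofAdd 1) : C G := by
  classical
  have hE : ∀ n : ℤ, E (t ^ n) = Multiplicative.ofAdd n := by
    intro n
    rw [map_zpow, ht, ← ofAdd_zsmul, smul_eq_mul, mul_one]
  have hdec : ∀ g : G, ∃ n : ℤ, ∃ y ∈ E.ker, g = t ^ n * y := by
    intro g
    refine ⟨Multiplicative.toAdd (E g), t ^ (-(Multiplicative.toAdd (E g))) * g, ?_, by group⟩
    rw [MonoidHom.mem_ker, map_mul, hE]
    change Multiplicative.ofAdd (-(Multiplicative.toAdd (E g))) * E g = 1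
    rw [ofAdd_neg]
    exact inv_mul_cancel _
  have hpm : ∀ (a : G) (x : ι), ∃ n : ℤ, π a x = π (t ^ n) x := by
    intro a x
    obtain ⟨n, y, hy, rfl⟩ := hdec a
    refine ⟨n, ?_⟩
    rw [map_mul, hπk y hy, mul_one]
  let Y : Finset ι → Set ι := fun F => {j | ∃ i ∈ F, ∃ a : G, π a i = j}
  have hY : ∀ F, ∀ a : G, ∀ j ∈ Y F, π a j ∈ Y F := by
    rintro F a j ⟨i, hi, b, rfl⟩
    refine ⟨i, hi, a * b, ?_⟩
    rw [map_mul]
    rfl
  have hYc : ∀ F, ∀ a : G, ∀ j ∈ (Y F)ᶜ, π a j ∈ (Y F)ᶜ := by
    intro F a j hj h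
    apply hj
    have := hY F a⁻¹ _ h
    rwa [← Equiv.Perm.mul_apply, ← map_mul, inv_mul_cancel, map_one] at this
  have hMn : ∀ F, (d.M (Y F)ᶜ).Normal := fun F =>
    ⟨fun n hn g => d.M_conj' π hπ _ g n (hYc F g⁻¹) hn⟩
  refine Pool.Agent.Y430.SS.of_directed hC _ (Finset ι) (fun i j => ⟨i ∪ j, ?_, ?_⟩)
    (fun F => d.M (Y F)ᶜ ⊔ Subgroup.zpowers t) ?_ ?_ ?_
  · exact Finset.subset_union_left
  · exact Finset.subset_union_right
  · intro F F' hF
    refine sup_le_sup_right (d.M_anti (Set.compl_subset_compl.2 ?_)) _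
    rintro j ⟨i, hi, a, rfl⟩
    exact ⟨i, hF hi, a, rfl⟩
  · intro g
    obtain ⟨n, y, hy, rfl⟩ := hdec g
    refine ⟨(d.fin ⟨y, hy⟩).toFinset, mul_mem (Subgroup.mem_sup_right ⟨n, rfl⟩)
      (Subgroup.mem_sup_left ⟨hy, fun i hi => ?_⟩)⟩
    by_contra h
    exact hi ⟨i, (d.fin ⟨y, hy⟩).mem_toFinset.2 h, 1, by rw [map_one]; rfl⟩
  · intro F
    have horb : ∀ x : ι, ∃ K : Subgroup G, ∃ _ : K.Normal, C (G ⧸ K) ∧
        ∀ g ∈ K, ∀ h : g ∈ E.ker, ∀ a : G, d.ev (π a x) ⟨g, h⟩ = 1 := by
      intro x
      by_cases hx : Function.Injective fun n : ℤ => π (t ^ n) x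
      · obtain ⟨K, hK, h1, h2⟩ := d.inf_orb' π hπ hC ht x (hCD x) hx
        refine ⟨K, hK, h1, fun g hg h a => ?_⟩
        obtain ⟨n, hn⟩ := hpm a x
        rw [hn]
        exact h2 g hg h n
      · let O : Set ι := Set.range fun a : G => π a x
        have hO : ∀ g : G, ∀ i ∈ O, π g i ∈ O := by
          rintro g _ ⟨a, rfl⟩
          exact ⟨g * a, by simp only [map_mul, Equiv.Perm.mul_apply]⟩
        have hfin : Finite O := by
          set p := Function.minimalPeriod (fun y => π t • y) x with hp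
          have hp0 : p ≠ 0 := by
            intro h0
            apply hx
            intro m n hmn
            have h1 : (π t) ^ (m - n) • x = x := by
              have h2 : (π t) ^ m • x = (π t) ^ n • x := by
                rw [← map_zpow, ← map_zpow]
                exact hmn
              have h3 : (π t) ^ (-n) • (π t) ^ m • x =
                  (π t) ^ (-n) • (π t) ^ n • x := by rw [h2]
              rw [← mul_smul, ← mul_smul, ← zpow_add, ← zpow_add, neg_add_cancel, zpow_zero,
                one_smul] at h3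
              rw [sub_eq_neg_add]
              exact h3
            rw [MulAction.zpow_smul_eq_iff_minimalPeriod_dvd, ← hp, h0] at h1
            have h4 : m - n = 0 := by simpa using h1
            omega
          have hsub : O ⊆ (fun n : ℤ => (π t) ^ n • x) '' (Set.Ico 0 (p : ℤ)) := by
            rintro _ ⟨a, rfl⟩
            obtain ⟨n, hn⟩ := hpm a x
            refine ⟨n % p, ⟨Int.emod_nonneg _ (by omega), Int.emod_lt_of_pos _ (by omega)⟩, ?_⟩
            have h1 := MulAction.zpow_smul_mod_minimalPeriod (π t) x n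
            change (π t) ^ (n % (p : ℤ)) • x = π a x
            rw [h1, hn, map_zpow]
            rfl
          exact ((Set.finite_Ico 0 (p : ℤ)).image _).subset hsub
        haveI hn : (d.M O).Normal := ⟨fun n hn g => d.M_conj' π hπ _ g n (hO g⁻¹) hn⟩
        refine ⟨d.M O, hn, d.fin_orb' π hπk hπ hC A hcy hA O ⟨x, 1, by simp⟩ hO, ?_⟩
        rintro g ⟨h, h'⟩ _ a
        exact h' _ ⟨a, rfl⟩
    choose K hKn hKC hK using horb
    let S : Subgroup G := d.M (Y F)ᶜ ⊔ Subgroup.zpowers t
    let K' : Option ι → Subgroup S := fun o => match o with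
      | none => (E.comp S.subtype).ker
      | some x => ((QuotientGroup.mk' (K x)).comp S.subtype).ker
    refine joint hC K' ?_ ?_ (insert none (F.image some)) (Finset.insert_nonempty _ _) ?_
    · rintro (_ | x)
      · exact MonoidHom.normal_ker _
      · exact MonoidHom.normal_ker _
    · rintro (_ | x)
      · exact quot_ker hC _ hC.int
      · exact quot_ker hC _ (hKC x)
    · intro g hg
      have h0 : (g : G) ∈ E.ker := hg none (Finset.mem_insert_self _ _)
      apply Subtype.ext
      change (g : G) = 1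
      have h1 : (⟨(g : G), h0⟩ : E.ker) = 1 := by
        refine d.ext _ _ (fun i => ?_)
        rw [map_one]
        by_cases hi : i ∈ Y F
        · obtain ⟨x, hx, a, rfl⟩ := hi
          have h2 : g ∈ K' (some x) := hg (some x)
            (Finset.mem_insert_of_mem (Finset.mem_image_of_mem _ hx))
          have h3 : ((g : G) : G ⧸ K x) = 1 := MonoidHom.mem_ker.1 h2
          rw [QuotientGroup.eq_one_iff] at h3
          exact hK x _ h3 h0 a
        · haveI := hMn F
          obtain ⟨m, hm, z, ⟨n, rfl⟩, hz⟩ := Subgroup.mem_sup_of_normal_left.1 g.2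
          have hz' : m * t ^ n = (g : G) := hz
          have h4 : n = 0 := by
            have h5 : E (m * t ^ n) = 1 := by
              rw [hz']
              exact h0
            rw [map_mul, MonoidHom.mem_ker.1 hm.choose, one_mul, hE] at h5
            exact Multiplicative.ofAdd.injective h5
          rw [h4, zpow_zero, mul_one] at hz'
          subst hz'
          exact hm.choose_spec i hi
      exact congrArg Subtype.val h1

end

end Dec

/-- **Extensions whose kernel is a restricted direct product with permuted factors.** -/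
theorem permuted (hC : Closed C) (hE : ExtClosed C) {G Q : Type} [Group G] [Group Q] (f : G →* Q)
    (hf : Function.Surjective f) (hQ : C Q) {ι : Type} {D : ι → Type} [∀ i, Group (D i)]
    (d : Dec f.ker ι D) (π : G →* Equiv.Perm ι) (hπk : ∀ y ∈ f.ker, π y = 1)
    (hπ : ∀ (g y : G) (hy : y ∈ f.ker) (i : ι) (hy' : g * y * g⁻¹ ∈ f.ker),
      d.ev i ⟨y, hy⟩ = 1 → d.ev (π g i) ⟨g * y * g⁻¹, hy'⟩ = 1)
    (hCD : ∀ i, C (D i)) (A : ∀ i, Set (D i → D i)) (hcy : ∀ i, ByCyc C (D i) (A i))
    (hA : ∀ (g : G) (i : ι), π g i = i → d.stab g i ∈ A i) : C G := by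
  refine hE G Q f hf hQ (d.ker_mem hC hCD) (fun q hq => ?_)
  obtain ⟨E, hEq⟩ := exists_expo f hq
  have hinj : Function.Injective fun n : ℤ => q ^ n := injective_zpow_iff_not_isOfFinOrder.2 hq
  obtain ⟨t, ht⟩ := hf q
  have htm : t ∈ (Subgroup.zpowers q).comap f := by
    rw [Subgroup.mem_comap, ht]
    exact Subgroup.mem_zpowers q
  have hE1 : E ⟨t, htm⟩ = Multiplicative.ofAdd 1 := by
    have h1 := hEq ⟨t, htm⟩
    have h2 : q ^ (Multiplicative.toAdd (E ⟨t, htm⟩)) = q ^ (1 : ℤ) := by
      rw [h1, zpow_one]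
      exact ht
    exact congrArg Multiplicative.ofAdd (hinj h2)
  have hker : ∀ g, g ∈ E.ker ↔ (g : G) ∈ f.ker := by
    intro g
    rw [MonoidHom.mem_ker, MonoidHom.mem_ker, ← hEq]
    constructor
    · intro h
      rw [h]
      exact zpow_zero q
    · intro h
      have h2 : q ^ (Multiplicative.toAdd (E g)) = q ^ (0 : ℤ) := by rw [h, zpow_zero]
      exact congrArg Multiplicative.ofAdd (hinj h2)
  have hmem : ∀ g : f.ker, (g : G) ∈ (Subgroup.zpowers q).comap f := by
    intro g
    rw [Subgroup.mem_comap, MonoidHom.mem_ker.1 g.2]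
    exact one_mem _
  let e : E.ker ≃* f.ker :=
    { toFun := fun g => ⟨g.1.1, (hker g.1).1 g.2⟩
      invFun := fun g => ⟨⟨g.1, hmem g⟩, (hker ⟨g.1, hmem g⟩).2 g.2⟩
      left_inv := fun g => rfl
      right_inv := fun g => rfl
      map_mul' := fun a b => rfl }
  exact (d.trans e).over_int' (π.comp (Subgroup.subtype _))
    (fun y hy => hπk y.1 ((hker y).1 hy))
    (fun g y hy i hy' h => hπ g.1 y.1 ((hker y).1 hy) i ((hker _).1 hy') h)
    hC hCD A hcy (fun g i h => hA g.1 i h) hE1

/-- groups over the integers which act by inner automorphisms on the kernel -/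
theorem byCyc_inner (hC : Closed C) {D : Type} [Group D] (hD : C D) :
    ByCyc C D {α | ∃ v : D, ∀ u, α u = v * u * v⁻¹} := by
  intro L _ φ e h
  -- the elements which centralise the kernel
  have h1 : ∀ p : L, ∃ z : L, φ z = φ p ∧ ∀ y : φ.ker, z * y = y * z := by
    intro p
    obtain ⟨v, hv⟩ := h p
    refine ⟨((e.symm v : L))⁻¹ * p, ?_, ?_⟩
    · rw [map_mul, map_inv, MonoidHom.mem_ker.1 (e.symm v).2, inv_one, one_mul]
    · intro y
      have h2 := hv (e y)
      unfold cja at h2
      have h3 : (⟨p * (e.symm (e y) : L) * p⁻¹,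
          (MonoidHom.normal_ker φ).conj_mem _ (e.symm (e y)).2 p⟩ : φ.ker) =
          e.symm v * y * (e.symm v)⁻¹ := by
        apply e.injective
        rw [map_mul, map_mul, map_inv, e.apply_symm_apply]
        exact h2
      have h4 : p * (y : L) * p⁻¹ = (e.symm v : L) * y * (e.symm v : L)⁻¹ := by
        have h5 := congrArg Subtype.val h3
        rw [e.symm_apply_apply] at h5
        exact h5
      have h6 : p * (y : L) = (e.symm v : L) * y * (e.symm v : L)⁻¹ * p := by
        rw [← h4, inv_mul_cancel_right]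
      rw [mul_assoc, h6]
      group
  by_cases htriv : ∀ p : L, φ p = 1
  · refine hC.of_injective _ D (e.toMonoidHom.comp
      { toFun := fun p => ⟨p, htriv p⟩
        map_one' := rfl
        map_mul' := fun _ _ => rfl }) ?_ hD
    refine e.injective.comp ?_
    intro a b hab
    exact congrArg Subtype.val hab
  · obtain ⟨g, hg⟩ := (Subgroup.isCyclic_iff_exists_zpowers_eq_top φ.range).1 inferInstance
    have hgm : g ∈ φ.range := by
      rw [← hg]
      exact Subgroup.mem_zpowers g
    obtain ⟨p, hp⟩ := hgm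
    obtain ⟨z, hz, hzc⟩ := h1 p
    rw [not_forall] at htriv
    obtain ⟨p', hp'⟩ := htriv
    have hgen : ∀ w : L, ∃ n : ℤ, φ w = φ z ^ n := by
      intro w
      have h2 : φ w ∈ Subgroup.zpowers g := by
        rw [hg]
        exact ⟨w, rfl⟩
      obtain ⟨n, hn⟩ := h2
      refine ⟨n, ?_⟩
      have h4 : g ^ n = φ w := hn
      rw [hz, hp, h4]
    have hz1 : φ z ≠ 1 := by
      intro h2
      obtain ⟨n, hn⟩ := hgen p'
      rw [h2, one_zpow] at hn
      exact hp' hn
    have hinj : ∀ n : ℤ, φ z ^ n = 1 → n = 0 := by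
      intro n hn
      by_contra h0
      apply hz1
      have h2 : n * Multiplicative.toAdd (φ z) = 0 := by
        have := congrArg Multiplicative.toAdd hn
        rwa [toAdd_zpow, smul_eq_mul] at this
      rcases mul_eq_zero.1 h2 with h3 | h3
      · exact absurd h3 h0
      · exact Multiplicative.toAdd.injective h3
    have hzc' : ∀ (y : φ.ker) (n : ℤ), z ^ n * y = y * z ^ n := by
      intro y n
      exact (Commute.zpow_left (hzc y : Commute z (y : L)) n)
    let Θ : φ.ker × Multiplicative ℤ →* L :=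
      { toFun := fun a => (a.1 : L) * z ^ (Multiplicative.toAdd a.2)
        map_one' := by simp
        map_mul' := fun a b => by
          change (a.1 : L) * (b.1 : L) * z ^ (Multiplicative.toAdd a.2 + Multiplicative.toAdd b.2) =
            (a.1 : L) * z ^ (Multiplicative.toAdd a.2) * ((b.1 : L) * z ^ (Multiplicative.toAdd b.2))
          rw [zpow_add]
          have := hzc' b.1 (Multiplicative.toAdd a.2)
          calc (a.1 : L) * (b.1 : L) * (z ^ (Multiplicative.toAdd a.2) *
                z ^ (Multiplicative.toAdd b.2))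
              = (a.1 : L) * ((b.1 : L) * z ^ (Multiplicative.toAdd a.2)) *
                z ^ (Multiplicative.toAdd b.2) := by simp only [mul_assoc]
            _ = _ := by
              rw [← this]
              simp only [mul_assoc] }
    have hΘ : Function.Bijective Θ := by
      constructor
      · rw [injective_iff_map_eq_one]
        rintro ⟨y, n⟩ h2
        have h3 : (y : L) * z ^ (Multiplicative.toAdd n) = 1 := h2
        have h4 := congrArg φ h3
        rw [map_mul, MonoidHom.mem_ker.1 y.2, one_mul, map_zpow, map_one] at h4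
        have h5 := hinj _ h4
        rw [h5, zpow_zero, mul_one] at h3
        exact Prod.ext (Subtype.ext h3) h5
      · intro w
        obtain ⟨n, hn⟩ := hgen w
        refine ⟨(⟨w * (z ^ n)⁻¹, ?_⟩, Multiplicative.ofAdd n), ?_⟩
        · rw [MonoidHom.mem_ker, map_mul, map_inv, map_zpow, hn, mul_inv_cancel]
        · change w * (z ^ n)⁻¹ * z ^ n = w
          rw [inv_mul_cancel_right]
    have h7 : C (φ.ker × Multiplicative ℤ) :=
      hC.prod _ _ (Pool.Agent.Y812.SS.C_equiv hC e hD) hC.int
    exact Pool.Agent.Y812.SS.C_equiv hC (MulEquiv.ofBijective Θ hΘ).symm h7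

end Pool.Agent.Q152.WP
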