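import Pool.Agent.Q152.WP.Basic

/-!
# Restricted permutational wreath products over arbitrary sets
-/

set_option autoImplicit false
set_option linter.unusedSectionVars false
set_option linter.style.haveILetI false

namespace Pool.Agent.Q152.WP

open Pool.Agent.Y462.SS Monoid

/-- The extension property of the class of groups that satisfy the Farrell–Jones conjecture: if `f`
maps `G` onto a group `Q` of the class, and if the kernel and the preimages of all infinite cyclic
subgroups of `Q` are in the class, then `G` is in the class. -/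
def ExtClosed (C : ∀ (G : Type) [Group G], Prop) : Prop :=
  ∀ (G Q : Type) [Group G] [Group Q] (f : G →* Q), Function.Surjective f → C Q → C f.ker →
    (∀ q : Q, ¬ IsOfFinOrder q → C ((Subgroup.zpowers q).comap f)) → C G

variable {C : ∀ (G : Type) [Group G], Prop}

/-- subgroups -/
theorem of_sub (hC : Closed C) {G : Type} [Group G] (K : Subgroup G) (h : C G) : C K :=
  hC.of_injective K G K.subtype K.subtype_injective h

/-- quotients by intersections -/
theorem quot_inf (hC : Closed C) {G : Type} [Group G] (K L : Subgroup G) [K.Normal] [L.Normal]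
    (hK : C (G ⧸ K)) (hL : C (G ⧸ L)) : C (G ⧸ (K ⊓ L)) := by
  refine hC.of_injective _ ((G ⧸ K) × (G ⧸ L))
    ((QuotientGroup.map (K ⊓ L) K (MonoidHom.id G) inf_le_left).prod
      (QuotientGroup.map (K ⊓ L) L (MonoidHom.id G) inf_le_right)) ?_ (hC.prod _ _ hK hL)
  rw [injective_iff_map_eq_one]
  intro x hx
  induction x using QuotientGroup.induction_on with
  | H g =>
    have h1 := congrArg Prod.fst hx
    have h2 := congrArg Prod.snd hx
    have h1' : ((g : G) : G ⧸ K) = 1 := h1
    have h2' : ((g : G) : G ⧸ L) = 1 := h2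
    rw [QuotientGroup.eq_one_iff] at h1' h2' ⊢
    exact ⟨h1', h2'⟩

/-- a group with finitely many homomorphisms to groups of the class, one of them given by `K₀`, with
trivial common kernel -/
theorem joint (hC : Closed C) {G : Type} [Group G] {ι : Type} (K : ι → Subgroup G)
    (hn : ∀ i, (K i).Normal) (hK : ∀ i, C (G ⧸ K i)) (F : Finset ι) (hF : F.Nonempty)
    (h : ∀ g, (∀ i ∈ F, g ∈ K i) → g = 1) : C G := by
  classical
  have key : ∀ F : Finset ι, F.Nonempty → ∃ L : Subgroup G, ∃ _ : L.Normal, C (G ⧸ L) ∧
      ∀ g, g ∈ L ↔ ∀ i ∈ F, g ∈ K i := by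
    intro F hF
    induction hF using Finset.Nonempty.cons_induction with
    | singleton a => exact ⟨K a, hn a, hK a, fun g => by simp⟩
    | cons a s ha hs ih =>
      obtain ⟨L, hL, h1, h2⟩ := ih
      haveI := hn a
      refine ⟨K a ⊓ L, inferInstance, quot_inf hC _ _ (hK a) h1, fun g => ?_⟩
      rw [Subgroup.mem_inf, h2]
      simp
  obtain ⟨L, hL, h1, h2⟩ := key F hF
  have hbot : L = ⊥ := by
    rw [eq_bot_iff]
    intro g hg
    exact h g ((h2 g).1 hg)
  subst hbot
  exact hC.of_injective G (G ⧸ (⊥ : Subgroup G)) (QuotientGroup.mk' ⊥) (by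
    rw [injective_iff_map_eq_one]
    intro g hg
    have := (QuotientGroup.eq_one_iff g).1 hg
    exact this) h1

/-- the image of a homomorphism -/
theorem quot_ker (hC : Closed C) {G T : Type} [Group G] [Group T] (f : G →* T) (h : C T) :
    C (G ⧸ f.ker) :=
  hC.of_injective _ T (QuotientGroup.kerLift f) (QuotientGroup.kerLift_injective f) h

variable {A X H : Type} [Group A] [Group H] [MulAction H X]

/-- wreath products over finite sets -/
theorem wreath_finite (hC : Closed C) (hX : Finite X) (hA : C A) (hH : C H) : C (PW A X H) := by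
  refine hC.of_injective _ (Wr X A × H)
    { toFun := fun g => (⟨g.s, MulAction.toPerm g.h⟩, g.h)
      map_one' := ?_
      map_mul' := fun a b => ?_ } ?_
    (hC.prod _ _ (Pool.Agent.Y812.SS.t_wr C hC X A hX hA) hH)
  · refine Prod.ext (Wr.ext rfl ?_) rfl
    ext x
    simp
  · refine Prod.ext (Wr.ext (funext fun x => ?_) ?_) rfl
    · simp
    · ext x
      simp [mul_smul]
  · intro a b hab
    have h1 := congrArg (fun p : Wr X A × H => p.1.s) hab
    have h2 := congrArg (fun p : Wr X A × H => p.2) hab
    exact PW.ext h1 h2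

/-- the integers are residually finite -/
theorem resFin_int : ResFin (Multiplicative ℤ) := by
  intro h hh
  set n : ℤ := Multiplicative.toAdd h with hn
  have hn0 : n ≠ 0 := fun h0 => hh (Multiplicative.toAdd.injective h0)
  refine ⟨Subgroup.zpowers (Multiplicative.ofAdd (2 * n)), ?_, ?_⟩
  · have h2 : (2 * n).natAbs ≠ 0 := by
      rw [Int.natAbs_ne_zero]
      exact mul_ne_zero two_ne_zero hn0
    refine ⟨?_⟩
    have h3 : (Subgroup.zpowers (Multiplicative.ofAdd (2 * n))).index =
        (AddSubgroup.zmultiples (2 * n)).index := rfl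
    rw [h3, Int.index_zmultiples]
    exact h2
  · rintro ⟨k, hk⟩
    have h4 : k * (2 * n) = n := by
      have h := congrArg Multiplicative.toAdd hk
      simp only at h
      rw [toAdd_zpow, toAdd_ofAdd, smul_eq_mul] at h
      exact h
    have h5 : n * (2 * k - 1) = 0 := by linear_combination h4
    rcases mul_eq_zero.1 h5 with h6 | h6
    · exact hn0 h6
    · omega

/-- the part of the wreath product over the powers of `q` -/
abbrev Over (A : Type) {X H : Type} [Group A] [Group H] [MulAction H X] (q : H) :
    Subgroup (PW A X H) := (Subgroup.zpowers q).comap (PW.proj A X H)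

/-- the exponent of `q` -/
theorem exists_exp {q : H} (hq : ¬ IsOfFinOrder q) (g : Over A (X := X) q) :
    ∃! m : ℤ, q ^ m = g.1.h := by
  obtain ⟨m, hm⟩ := g.2
  refine ⟨m, hm, fun m' hm' => ?_⟩
  have h1 : q ^ m' = q ^ m := hm'.trans hm.symm
  exact (injective_zpow_iff_not_isOfFinOrder.2 hq) h1

/-- the exponent of `q`, as a homomorphism -/
noncomputable def expo {q : H} (hq : ¬ IsOfFinOrder q) : Over A (X := X) q →* Multiplicative ℤ where
  toFun g := Multiplicative.ofAdd (exists_exp hq g).choose
  map_one' := by
    have h := (exists_exp hq (1 : Over A (X := X) q)).choose_spec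
    have h2 := h.2 0 (by simp)
    rw [← h2]
    rfl
  map_mul' a b := by
    have ha := (exists_exp hq a).choose_spec
    have hb := (exists_exp hq b).choose_spec
    have hab := (exists_exp hq (a * b)).choose_spec
    have h2 := hab.2 ((exists_exp hq a).choose + (exists_exp hq b).choose) (by
      simp only
      rw [zpow_add, ha.1, hb.1]
      rfl)
    rw [← h2]
    rfl

theorem expo_spec {q : H} (hq : ¬ IsOfFinOrder q) (g : Over A (X := X) q) :
    q ^ (Multiplicative.toAdd (expo hq g)) = g.1.h :=
  (exists_exp hq g).choose_spec.1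

/-- restriction to an infinite orbit -/
noncomputable def resInf {q : H} (hq : ¬ IsOfFinOrder q) (x : X)
    (hx : Function.Injective fun n : ℤ => q ^ n • x) :
    Over A (X := X) q →* PW A (Multiplicative ℤ) (Multiplicative ℤ) where
  toFun g := ⟨fun n => g.1.s (q ^ (Multiplicative.toAdd n) • x), by
    refine (g.1.fin.preimage (f := fun n : Multiplicative ℤ => q ^ (Multiplicative.toAdd n) • x)
      ?_).subset (fun n hn => hn)
    intro a _ b _ hab
    exact Multiplicative.toAdd.injective (hx hab), expo hq g⟩
  map_one' := PW.ext' (fun n => rfl) (by simp)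
  map_mul' a b := by
    refine PW.ext' (fun n => ?_) (by simp)
    change a.1.s (b.1.h • q ^ (Multiplicative.toAdd n) • x) * b.1.s _ = a.1.s _ * b.1.s _
    congr 2
    rw [← expo_spec hq b, ← mul_smul, ← zpow_add]
    rfl

/-- restriction to an orbit of `q`, as a set with an action of the integers -/
noncomputable def resFinOrb {q : H} (hq : ¬ IsOfFinOrder q) (O : Set X)
    (hO : ∀ x ∈ O, ∀ n : ℤ, q ^ n • x ∈ O) :
    Over A (X := X) q →* Wr O A × Multiplicative ℤ where
  toFun g := (⟨fun y => g.1.s y.1,
    { toFun := fun y => ⟨g.1.h • y.1, by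
        rw [← expo_spec hq g]
        exact hO _ y.2 _⟩
      invFun := fun y => ⟨g.1.h⁻¹ • y.1, by
        rw [← expo_spec hq g, ← zpow_neg]
        exact hO _ y.2 _⟩
      left_inv := fun y => Subtype.ext (by simp)
      right_inv := fun y => Subtype.ext (by simp) }⟩, expo hq g)
  map_one' := by
    refine Prod.ext (Wr.ext rfl ?_) (by simp)
    ext y
    change ((1 : H) • (y : X)) = y
    rw [one_smul]
  map_mul' a b := by
    refine Prod.ext (Wr.ext rfl ?_) (by simp)
    ext y
    change ((a.1.h * b.1.h) • (y : X)) = a.1.h • b.1.h • (y : X)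
    rw [mul_smul]

/-- the part of the wreath product over the powers of an element of infinite order -/
theorem over_mem (hC : Closed C) (hA : C A) {q : H} (hq : ¬ IsOfFinOrder q) :
    C (Over A (X := X) q) := by
  classical
  -- the elements supported in the orbits of a finite set
  let Y : Finset X → Set X := fun F => {x | ∃ y ∈ F, ∃ n : ℤ, q ^ n • y = x}
  have hY : ∀ F, ∀ x ∈ Y F, ∀ n : ℤ, q ^ n • x ∈ Y F := by
    rintro F x ⟨y, hy, m, rfl⟩ n
    exact ⟨y, hy, n + m, by rw [zpow_add, mul_smul]⟩
  have hYh : ∀ (g : Over A (X := X) q) F x, x ∈ Y F → g.1.h • x ∈ Y F := by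
    intro g F x hx
    rw [← expo_spec hq g]
    exact hY F x hx _
  have hYh' : ∀ (g : Over A (X := X) q) F x, g.1.h • x ∈ Y F → x ∈ Y F := by
    intro g F x hx
    have := hYh g⁻¹ F _ hx
    simpa using this
  let S : Finset X → Subgroup (Over A (X := X) q) := fun F =>
    { carrier := {g | ∀ x, x ∉ Y F → g.1.s x = 1}
      one_mem' := fun x _ => rfl
      mul_mem' := by
        intro a b ha hb x hx
        change a.1.s (b.1.h • x) * b.1.s x = 1
        rw [hb x hx, ha _ (fun h => hx (hYh' b F x h)), one_mul]
      inv_mem' := by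
        intro a ha x hx
        change (a.1.s (a.1.h⁻¹ • x))⁻¹ = 1
        rw [ha _ (fun h => hx ?_), inv_one]
        have := hYh a F _ h
        simpa using this }
  refine Pool.Agent.Y430.SS.of_directed hC _ (Finset X) (fun i j => ⟨i ∪ j, ?_, ?_⟩) S ?_ ?_ ?_
  · exact Finset.subset_union_left
  · exact Finset.subset_union_right
  · intro F F' hF g hg x hx
    exact hg x (fun ⟨y, hy, n, h⟩ => hx ⟨y, hF hy, n, h⟩)
  · intro g
    refine ⟨g.1.fin.toFinset, fun x hx => ?_⟩
    by_contra h
    exact hx ⟨x, g.1.fin.mem_toFinset.2 h, 0, by simp⟩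
  · intro F
    -- the homomorphisms: the exponent, and the restrictions to the orbits
    have horb : ∀ x : X, ∃ K : Subgroup (S F), ∃ _ : K.Normal, C (S F ⧸ K) ∧
        ∀ g ∈ K, ∀ n : ℤ, g.1.1.s (q ^ n • x) = 1 := by
      intro x
      by_cases hx : Function.Injective fun n : ℤ => q ^ n • x
      · refine ⟨((resInf hq x hx).comp (S F).subtype).ker, inferInstance, quot_ker hC _ ?_, ?_⟩
        · exact wreath_resFin hC hA hC.int resFin_int
        · intro g hg n
          have h1 := congrArg (fun p => PW.s p (Multiplicative.ofAdd n)) (MonoidHom.mem_ker.1 hg)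
          exact h1
      · let O : Set X := Set.range fun n : ℤ => q ^ n • x
        have hO : ∀ y ∈ O, ∀ n : ℤ, q ^ n • y ∈ O := by
          rintro y ⟨m, rfl⟩ n
          exact ⟨n + m, by simp only [zpow_add, mul_smul]⟩
        have hfin : Finite O := by
          unfold Function.Injective at hx
          push Not at hx
          obtain ⟨a, b, hab, hne⟩ := hx
          -- a positive period
          obtain ⟨d, hd, hper⟩ : ∃ d : ℤ, 0 < d ∧ q ^ d • x = x := by
            rcases lt_or_gt_of_ne hne with hlt | hlt
            · refine ⟨b - a, by omega, ?_⟩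
              have : q ^ (-a) • q ^ a • x = q ^ (-a) • q ^ b • x := by rw [hab]
              rw [← mul_smul, ← mul_smul, ← zpow_add, ← zpow_add, neg_add_cancel, zpow_zero,
                one_smul] at this
              rw [sub_eq_neg_add, ← this]
            · refine ⟨a - b, by omega, ?_⟩
              have : q ^ (-b) • q ^ a • x = q ^ (-b) • q ^ b • x := by rw [hab]
              rw [← mul_smul, ← mul_smul, ← zpow_add, ← zpow_add, neg_add_cancel, zpow_zero,
                one_smul] at this
              rw [sub_eq_neg_add, this]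
          have hper' : ∀ k : ℤ, q ^ (d * k) • x = x := by
            intro k
            have h1 : ∀ k : ℕ, q ^ (d * (k : ℤ)) • x = x := by
              intro k
              induction k with
              | zero => simp
              | succ k ih =>
                rw [Nat.cast_succ, mul_add, mul_one, zpow_add, mul_smul, hper, ih]
            rcases Int.eq_nat_or_neg k with ⟨m, rfl | rfl⟩
            · exact h1 m
            · have h2 := h1 m
              rw [mul_neg, zpow_neg, inv_smul_eq_iff]
              exact h2.symm
          have hsub : O ⊆ (fun n : ℤ => q ^ n • x) '' (Set.Ico 0 d) := by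
            rintro y ⟨n, rfl⟩
            refine ⟨n % d, ⟨Int.emod_nonneg _ (by omega), Int.emod_lt_of_pos _ hd⟩, ?_⟩
            have h3 : n = n % d + d * (n / d) := (Int.emod_add_mul_ediv n d).symm
            simp only
            conv_rhs => rw [h3, zpow_add, mul_smul, hper']
          exact ((Set.finite_Ico 0 d).image _).subset hsub
        refine ⟨((resFinOrb hq O hO).comp (S F).subtype).ker, inferInstance, quot_ker hC _ ?_, ?_⟩
        · exact hC.prod _ _ (Pool.Agent.Y812.SS.t_wr C hC O A hfin hA) hC.int
        · intro g hg n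
          have h1 := congrArg (fun p : Wr O A × Multiplicative ℤ => p.1.s ⟨q ^ n • x, n, rfl⟩)
            (MonoidHom.mem_ker.1 hg)
          exact h1
    choose K hKn hKC hK using horb
    let K' : Option X → Subgroup (S F) := fun o => match o with
      | none => ((expo hq).comp (S F).subtype).ker
      | some x => K x
    refine joint hC K' ?_ ?_ (insert none (F.image some)) (Finset.insert_nonempty _ _) ?_
    · rintro (_ | x)
      · exact MonoidHom.normal_ker _
      · exact hKn x
    · rintro (_ | x)
      · exact quot_ker hC _ hC.int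
      · exact hKC x
    · intro g hg
      have h0 : g ∈ K' none := hg none (Finset.mem_insert_self _ _)
      have h1 : expo hq g.1 = 1 := MonoidHom.mem_ker.1 h0
      apply Subtype.ext
      apply Subtype.ext
      refine PW.ext' (fun x => ?_) ?_
      · by_cases hx : x ∈ Y F
        · obtain ⟨y, hy, n, rfl⟩ := hx
          exact hK y g (hg (some y) (Finset.mem_insert_of_mem (Finset.mem_image_of_mem _ hy))) n
        · exact g.2 x hx
      · rw [← expo_spec hq g.1, h1]
        simp

/-- the base group -/
theorem base_mem (hC : Closed C) (hA : C A) : C (PW.proj A X H).ker := by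
  classical
  let S : Finset X → Subgroup (PW.proj A X H).ker := fun F =>
    { carrier := {g | ∀ x, x ∉ F → g.1.s x = 1}
      one_mem' := fun x _ => rfl
      mul_mem' := by
        intro a b ha hb x hx
        have hbh : b.1.h = 1 := b.2
        change a.1.s (b.1.h • x) * b.1.s x = 1
        rw [hb x hx, hbh, one_smul, ha x hx, one_mul]
      inv_mem' := by
        intro a ha x hx
        have hah : a.1.h = 1 := a.2
        change (a.1.s (a.1.h⁻¹ • x))⁻¹ = 1
        rw [hah, inv_one, one_smul, ha x hx, inv_one] }
  refine Pool.Agent.Y430.SS.of_directed hC _ (Finset X) (fun i j => ⟨i ∪ j, ?_, ?_⟩) S ?_ ?_ ?_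
  · exact Finset.subset_union_left
  · exact Finset.subset_union_right
  · intro F F' hF g hg x hx
    exact hg x (fun h => hx (hF h))
  · intro g
    refine ⟨g.1.fin.toFinset, fun x hx => ?_⟩
    by_contra h
    exact hx (g.1.fin.mem_toFinset.2 h)
  · intro F
    refine hC.of_injective _ (F → A)
      { toFun := fun g x => g.1.1.s x
        map_one' := rfl
        map_mul' := fun a b => ?_ } ?_ (Pool.Agent.Y812.SS.C_pow hC F A hA)
    · funext x
      have hbh : b.1.1.h = 1 := b.1.2
      change a.1.1.s (b.1.1.h • x.1) * b.1.1.s x = a.1.1.s x * b.1.1.s x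
      rw [hbh, one_smul]
    · intro a b hab
      apply Subtype.ext
      apply Subtype.ext
      refine PW.ext' (fun x => ?_) ?_
      · by_cases hx : x ∈ F
        · exact congrFun hab ⟨x, hx⟩
        · rw [a.2 x hx, b.2 x hx]
      · have h1 : a.1.1.h = 1 := a.1.2
        have h2 : b.1.1.h = 1 := b.1.2
        rw [h1, h2]

/-- **Restricted permutational wreath products.** -/
theorem wreath_perm (hC : Closed C) (hE : ExtClosed C) (hA : C A) (hH : C H) : C (PW A X H) := by
  refine hE _ H (PW.proj A X H) ?_ hH (base_mem hC hA) ?_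
  · intro h
    exact ⟨⟨fun _ => 1, by simp, h⟩, rfl⟩
  · intro q hq
    exact over_mem hC hA hq

/-- torsion-free groups -/
theorem torsionFree (hA : ∀ a : A, IsOfFinOrder a → a = 1) (hH : ∀ h : H, IsOfFinOrder h → h = 1)
    (g : PW A X H) (hg : IsOfFinOrder g) : g = 1 := by
  have h1 : g.h = 1 := hH _ ((PW.proj A X H).isOfFinOrder hg)
  have hpow : ∀ (n : ℕ) (x : X), (g ^ n).s x = g.s x ^ n := by
    intro n x
    induction n with
    | zero =>
      rw [pow_zero, pow_zero]
      rfl
    | succ n ih => rw [pow_succ, PW.mul_s, h1, one_smul, ih, pow_succ]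
  refine PW.ext' (fun x => ?_) h1
  refine hA _ ?_
  rw [isOfFinOrder_iff_pow_eq_one] at hg ⊢
  obtain ⟨n, hn, hn'⟩ := hg
  refine ⟨n, hn, ?_⟩
  rw [← hpow, hn']
  rfl

end Pool.Agent.Q152.WP
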